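import Pool.Agent.Work.MP_e487d8_al.Mo.Hd.Defs

/-! MP_e487d8_al, block HD: BIG, the maps for `L(j)_z ∘ P`. -/

set_option autoImplicit false
set_option linter.unusedSectionVars false

open scoped TensorProduct

namespace Pool.Agent.KLR

variable {K I : Type} [Field K] [Fintype I] [DecidableEq I] (D : Datum K I)

namespace XHBIG

variable {D}

section pow

variable {R A B : Type} [Ring R] [AddCommGroup A] [Module R A] [AddCommGroup B] [Module R B]

theorem pow_semi (f : A →ₗ[R] B) (a : A →ₗ[R] A) (b : B →ₗ[R] B) (h : ∀ y, f (a y) = b (f y))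
    (N : ℕ) (y : A) : f ((a ^ N) y) = (b ^ N) (f y) := by
  induction N with
  | zero => simp
  | succ N ih =>
    rw [pow_succ', pow_succ', Module.End.mul_apply, Module.End.mul_apply, h, ih]

theorem pow_swap (a b : A →ₗ[R] A) (h : ∀ y, a (b y) = b (a y)) (N M : ℕ) (y : A) :
    (a ^ N) ((b ^ M) y) = (b ^ M) ((a ^ N) y) := by
  refine pow_semi (a ^ N) b b (fun z => ?_) M y
  exact (pow_semi b a a (fun w => (h w).symm) N z).symm

end pow

section smul

variable {A B : Type} [AddCommGroup A] [Module K A] [Module (KLRAlg D) A]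
  [IsScalarTower K (KLRAlg D) A] [AddCommGroup B] [Module K B] [Module (KLRAlg D) B]
  [IsScalarTower K (KLRAlg D) B]

theorem smulK (f : A →ₗ[KLRAlg D] B) (c : K) (y : A) : f (c • y) = c • f y :=
  (Conv.toK f).map_smul c y

theorem smulE (f : A ≃ₗ[KLRAlg D] B) (c : K) (y : A) : f (c • y) = c • f y :=
  (Conv.toK f.toLinearMap).map_smul c y

end smul

section map

open Conv

variable {m m' n n' l : ℕ} {M M' N N' L L' : Type}
  [AddCommGroup M] [Module K M] [Module (KLRAlg D) M] [IsScalarTower K (KLRAlg D) M]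
  [AddCommGroup N] [Module K N] [Module (KLRAlg D) N] [IsScalarTower K (KLRAlg D) N]
  [AddCommGroup L] [Module K L] [Module (KLRAlg D) L] [IsScalarTower K (KLRAlg D) L]
  [AddCommGroup M'] [Module K M'] [Module (KLRAlg D) M'] [IsScalarTower K (KLRAlg D) M']
  [AddCommGroup N'] [Module K N'] [Module (KLRAlg D) N'] [IsScalarTower K (KLRAlg D) N']
  [AddCommGroup L'] [Module K L'] [Module (KLRAlg D) L'] [IsScalarTower K (KLRAlg D) L']

/-- naturality of the associativity -/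
theorem assoc_nat (f : M →ₗ[KLRAlg D] M') (g : N →ₗ[KLRAlg D] N') (h : L →ₗ[KLRAlg D] L')
    (z : Conv D (m + n) (Conv D m M N) L) :
    Conv.assoc D m n M' N' L' (Conv.map (rfl : m + n = m + n) (Conv.map (rfl : m = m) f g) h z) =
      Conv.map (rfl : m = m) f (Conv.map (rfl : n = n) g h) (Conv.assoc D m n M N L z) := by
  have h1 : (Conv.assoc D m n M' N' L').toLinearMap ∘ₗ
      (Conv.map (rfl : m + n = m + n) (Conv.map (rfl : m = m) f g) h) =
      (Conv.map (rfl : m = m) f (Conv.map (rfl : n = n) g h)) ∘ₗ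
        (Conv.assoc D m n M N L).toLinearMap := by
    apply Conv.hom_ext₃
    intro u v w
    simp only [LinearMap.comp_apply, LinearEquiv.coe_coe, Conv.map_mk, Conv.assoc_mk]
  exact LinearMap.congr_fun h1 z

theorem assoc_symm_nat (f : M →ₗ[KLRAlg D] M') (g : N →ₗ[KLRAlg D] N') (h : L →ₗ[KLRAlg D] L')
    (z : Conv D m M (Conv D n N L)) :
    (Conv.assoc D m n M' N' L').symm (Conv.map (rfl : m = m) f (Conv.map (rfl : n = n) g h) z) =
      Conv.map (rfl : m + n = m + n) (Conv.map (rfl : m = m) f g) h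
        ((Conv.assoc D m n M N L).symm z) := by
  rw [LinearEquiv.symm_apply_eq, assoc_nat, LinearEquiv.apply_symm_apply]

theorem map_swap (h : m = m') (f : M →ₗ[KLRAlg D] M') (g : N →ₗ[KLRAlg D] N')
    (z : Conv D m M N) :
    Conv.map h f (LinearMap.id : N' →ₗ[KLRAlg D] N')
      (Conv.map (rfl : m = m) (LinearMap.id : M →ₗ[KLRAlg D] M) g z) =
    Conv.map (rfl : m' = m') (LinearMap.id : M' →ₗ[KLRAlg D] M') g
      (Conv.map h f (LinearMap.id : N →ₗ[KLRAlg D] N) z) := by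
  rw [Conv.map_map, Conv.map_map]
  rfl

theorem map_sq_right {f : N →ₗ[KLRAlg D] N'} {a : N →ₗ[KLRAlg D] N} {b : N' →ₗ[KLRAlg D] N'}
    (h : ∀ y, f (a y) = b (f y)) (z : Conv D m M N) :
    Conv.map (rfl : m = m) (LinearMap.id : M →ₗ[KLRAlg D] M) f
      (Conv.map (rfl : m = m) (LinearMap.id : M →ₗ[KLRAlg D] M) a z) =
    Conv.map (rfl : m = m) (LinearMap.id : M →ₗ[KLRAlg D] M) b
      (Conv.map (rfl : m = m) (LinearMap.id : M →ₗ[KLRAlg D] M) f z) := by
  have h1 : f ∘ₗ a = b ∘ₗ f := LinearMap.ext h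
  rw [Conv.map_map, Conv.map_map, h1]

theorem map_sq_left (hm : m = m') {f : M →ₗ[KLRAlg D] M'} {a : M →ₗ[KLRAlg D] M}
    {b : M' →ₗ[KLRAlg D] M'}
    (h : ∀ y, f (a y) = b (f y)) (z : Conv D m M N) :
    Conv.map hm f (LinearMap.id : N →ₗ[KLRAlg D] N)
      (Conv.map (rfl : m = m) a (LinearMap.id : N →ₗ[KLRAlg D] N) z) =
    Conv.map (rfl : m' = m') b (LinearMap.id : N →ₗ[KLRAlg D] N)
      (Conv.map hm f (LinearMap.id : N →ₗ[KLRAlg D] N) z) := by
  have h1 : f ∘ₗ a = b ∘ₗ f := LinearMap.ext h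
  rw [Conv.map_map, Conv.map_map, h1]

theorem map_pow_right (g : N →ₗ[KLRAlg D] N) (k : ℕ) :
    Conv.map (rfl : m = m) (LinearMap.id : M →ₗ[KLRAlg D] M) (g ^ k) =
      (Conv.map (rfl : m = m) (LinearMap.id : M →ₗ[KLRAlg D] M) g) ^ k := by
  induction k with
  | zero => exact Conv.map_id
  | succ k ih =>
    rw [pow_succ', pow_succ', ← ih, Module.End.mul_eq_comp, Module.End.mul_eq_comp,
      Conv.map_comp]
    rfl

theorem map_pow_left (g : M →ₗ[KLRAlg D] M) (k : ℕ) :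
    Conv.map (rfl : m = m) (g ^ k) (LinearMap.id : N →ₗ[KLRAlg D] N) =
      (Conv.map (rfl : m = m) g (LinearMap.id : N →ₗ[KLRAlg D] N)) ^ k := by
  induction k with
  | zero => exact Conv.map_id
  | succ k ih =>
    rw [pow_succ', pow_succ', ← ih, Module.End.mul_eq_comp, Module.End.mul_eq_comp,
      Conv.map_comp]
    rfl

theorem map_smul_right (g : N →ₗ[KLRAlg D] N') (c : K) :
    Conv.map (rfl : m = m) (LinearMap.id : M →ₗ[KLRAlg D] M) (c • g) =
      c • Conv.map (rfl : m = m) (LinearMap.id : M →ₗ[KLRAlg D] M) g := by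
  apply Conv.hom_ext
  intro u v
  rw [LinearMap.smul_apply, Conv.map_mk, Conv.map_mk, LinearMap.smul_apply, map_smul]

theorem map_smul_left (h : m = m') (g : M →ₗ[KLRAlg D] M') (c : K) :
    Conv.map h (c • g) (LinearMap.id : N →ₗ[KLRAlg D] N) =
      c • Conv.map h g (LinearMap.id : N →ₗ[KLRAlg D] N) := by
  apply Conv.hom_ext
  intro u v
  rw [LinearMap.smul_apply, Conv.map_mk, Conv.map_mk, LinearMap.smul_apply, map_smul,
    LinearMap.smul_apply]

theorem map_right_eq {F g : N →ₗ[KLRAlg D] N} {c : K} {k : ℕ} (h : ∀ y, F y = c • (g ^ k) y)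
    (z : Conv D m M N) :
    Conv.map (rfl : m = m) (LinearMap.id : M →ₗ[KLRAlg D] M) F z =
      c • ((Conv.map (rfl : m = m) (LinearMap.id : M →ₗ[KLRAlg D] M) g) ^ k) z := by
  have h1 : F = c • (g ^ k) := LinearMap.ext h
  rw [h1, map_smul_right, map_pow_right]
  rfl

theorem map_left_eq {F g : M →ₗ[KLRAlg D] M} {c : K} {k : ℕ} (h : ∀ y, F y = c • (g ^ k) y)
    (z : Conv D m M N) :
    Conv.map (rfl : m = m) F (LinearMap.id : N →ₗ[KLRAlg D] N) z =
      c • ((Conv.map (rfl : m = m) g (LinearMap.id : N →ₗ[KLRAlg D] N)) ^ k) z := by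
  have h1 : F = c • (g ^ k) := LinearMap.ext h
  rw [h1, map_smul_left, map_pow_left]
  rfl

end map

section core

variable {n l p : ℕ} {X L P : Type}
  [AddCommGroup X] [Module K X] [Module (KLRAlg D) X] [IsScalarTower K (KLRAlg D) X]
  [AddCommGroup L] [Module K L] [Module (KLRAlg D) L] [IsScalarTower K (KLRAlg D) L]
  [AddCommGroup P] [Module K P] [Module (KLRAlg D) P] [IsScalarTower K (KLRAlg D) P]

/-- `X ∘ (L ∘ P) → (L ∘ P) ∘ X` -/
noncomputable def UU (R : Conv D n X L →ₗ[KLRAlg D] Conv D l L X)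
    (U : Conv D n X P →ₗ[KLRAlg D] Conv D p P X) :
    Conv D n X (Conv D l L P) →ₗ[KLRAlg D] Conv D (l + p) (Conv D l L P) X :=
  (Conv.assoc D l p L P X).symm.toLinearMap ∘ₗ
    (Conv.map (rfl : l = l) (LinearMap.id : L →ₗ[KLRAlg D] L) U) ∘ₗ
      (Conv.assoc D l n L X P).toLinearMap ∘ₗ
        (Conv.map (Nat.add_comm n l) R (LinearMap.id : P →ₗ[KLRAlg D] P)) ∘ₗ
          (Conv.assoc D n l X L P).symm.toLinearMap

/-- `(L ∘ P) ∘ X → X ∘ (L ∘ P)` -/
noncomputable def UV (R : Conv D l L X →ₗ[KLRAlg D] Conv D n X L)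
    (U : Conv D p P X →ₗ[KLRAlg D] Conv D n X P) :
    Conv D (l + p) (Conv D l L P) X →ₗ[KLRAlg D] Conv D n X (Conv D l L P) :=
  (Conv.assoc D n l X L P).toLinearMap ∘ₗ
    (Conv.map (Nat.add_comm l n) R (LinearMap.id : P →ₗ[KLRAlg D] P)) ∘ₗ
      (Conv.assoc D l n L X P).symm.toLinearMap ∘ₗ
        (Conv.map (rfl : l = l) (LinearMap.id : L →ₗ[KLRAlg D] L) U) ∘ₗ
          (Conv.assoc D l p L P X).toLinearMap

theorem UU_apply (R : Conv D n X L →ₗ[KLRAlg D] Conv D l L X)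
    (U : Conv D n X P →ₗ[KLRAlg D] Conv D p P X) (y : Conv D n X (Conv D l L P)) :
    UU R U y = (Conv.assoc D l p L P X).symm
      (Conv.map (rfl : l = l) (LinearMap.id : L →ₗ[KLRAlg D] L) U
        (Conv.assoc D l n L X P (Conv.map (Nat.add_comm n l) R (LinearMap.id : P →ₗ[KLRAlg D] P)
          ((Conv.assoc D n l X L P).symm y)))) := rfl

theorem UV_apply (R : Conv D l L X →ₗ[KLRAlg D] Conv D n X L)
    (U : Conv D p P X →ₗ[KLRAlg D] Conv D n X P) (y : Conv D (l + p) (Conv D l L P) X) :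
    UV R U y = Conv.assoc D n l X L P
      (Conv.map (Nat.add_comm l n) R (LinearMap.id : P →ₗ[KLRAlg D] P)
        ((Conv.assoc D l n L X P).symm
          (Conv.map (rfl : l = l) (LinearMap.id : L →ₗ[KLRAlg D] L) U
            (Conv.assoc D l p L P X y)))) := rfl

/-- `u` on the third factor -/
theorem assoc3 {m n : ℕ} {M N L : Type}
    [AddCommGroup M] [Module K M] [Module (KLRAlg D) M] [IsScalarTower K (KLRAlg D) M]
    [AddCommGroup N] [Module K N] [Module (KLRAlg D) N] [IsScalarTower K (KLRAlg D) N]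
    [AddCommGroup L] [Module K L] [Module (KLRAlg D) L] [IsScalarTower K (KLRAlg D) L]
    (h : L →ₗ[KLRAlg D] L) (z : Conv D (m + n) (Conv D m M N) L) :
    Conv.assoc D m n M N L (Conv.map (rfl : m + n = m + n)
      (LinearMap.id : Conv D m M N →ₗ[KLRAlg D] Conv D m M N) h z) =
      Conv.map (rfl : m = m) (LinearMap.id : M →ₗ[KLRAlg D] M)
        (Conv.map (rfl : n = n) (LinearMap.id : N →ₗ[KLRAlg D] N) h)
          (Conv.assoc D m n M N L z) := by
  rw [← assoc_nat, Conv.map_id]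

/-- `u` on the first factor -/
theorem assoc1 {m n : ℕ} {M N L : Type}
    [AddCommGroup M] [Module K M] [Module (KLRAlg D) M] [IsScalarTower K (KLRAlg D) M]
    [AddCommGroup N] [Module K N] [Module (KLRAlg D) N] [IsScalarTower K (KLRAlg D) N]
    [AddCommGroup L] [Module K L] [Module (KLRAlg D) L] [IsScalarTower K (KLRAlg D) L]
    (f : M →ₗ[KLRAlg D] M) (z : Conv D (m + n) (Conv D m M N) L) :
    Conv.assoc D m n M N L (Conv.map (rfl : m + n = m + n)
      (Conv.map (rfl : m = m) f (LinearMap.id : N →ₗ[KLRAlg D] N))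
        (LinearMap.id : L →ₗ[KLRAlg D] L) z) =
      Conv.map (rfl : m = m) f
        (LinearMap.id : Conv D n N L →ₗ[KLRAlg D] Conv D n N L)
          (Conv.assoc D m n M N L z) := by
  rw [assoc_nat, Conv.map_id]

theorem assoc3s {m n : ℕ} {M N L : Type}
    [AddCommGroup M] [Module K M] [Module (KLRAlg D) M] [IsScalarTower K (KLRAlg D) M]
    [AddCommGroup N] [Module K N] [Module (KLRAlg D) N] [IsScalarTower K (KLRAlg D) N]
    [AddCommGroup L] [Module K L] [Module (KLRAlg D) L] [IsScalarTower K (KLRAlg D) L]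
    (h : L →ₗ[KLRAlg D] L) (z : Conv D m M (Conv D n N L)) :
    (Conv.assoc D m n M N L).symm (Conv.map (rfl : m = m) (LinearMap.id : M →ₗ[KLRAlg D] M)
        (Conv.map (rfl : n = n) (LinearMap.id : N →ₗ[KLRAlg D] N) h) z) =
      Conv.map (rfl : m + n = m + n)
        (LinearMap.id : Conv D m M N →ₗ[KLRAlg D] Conv D m M N) h
          ((Conv.assoc D m n M N L).symm z) := by
  rw [assoc_symm_nat, Conv.map_id]

theorem assoc1s {m n : ℕ} {M N L : Type}
    [AddCommGroup M] [Module K M] [Module (KLRAlg D) M] [IsScalarTower K (KLRAlg D) M]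
    [AddCommGroup N] [Module K N] [Module (KLRAlg D) N] [IsScalarTower K (KLRAlg D) N]
    [AddCommGroup L] [Module K L] [Module (KLRAlg D) L] [IsScalarTower K (KLRAlg D) L]
    (f : M →ₗ[KLRAlg D] M) (z : Conv D m M (Conv D n N L)) :
    (Conv.assoc D m n M N L).symm (Conv.map (rfl : m = m) f
        (LinearMap.id : Conv D n N L →ₗ[KLRAlg D] Conv D n N L) z) =
      Conv.map (rfl : m + n = m + n)
        (Conv.map (rfl : m = m) f (LinearMap.id : N →ₗ[KLRAlg D] N))
          (LinearMap.id : L →ₗ[KLRAlg D] L) ((Conv.assoc D m n M N L).symm z) := by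
  rw [← assoc_symm_nat, Conv.map_id]

variable {R1 : Conv D n X L →ₗ[KLRAlg D] Conv D l L X}
  {R2 : Conv D l L X →ₗ[KLRAlg D] Conv D n X L}
  {U0 : Conv D n X P →ₗ[KLRAlg D] Conv D p P X} {V0 : Conv D p P X →ₗ[KLRAlg D] Conv D n X P}
  {u : P →ₗ[KLRAlg D] P} {z : L →ₗ[KLRAlg D] L}

theorem UU_u (h : ∀ y, U0 (Conv.map (rfl : n = n) (LinearMap.id : X →ₗ[KLRAlg D] X) u y) =
      Conv.map (rfl : p = p) u (LinearMap.id : X →ₗ[KLRAlg D] X) (U0 y))
    (y : Conv D n X (Conv D l L P)) :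
    UU R1 U0 (Conv.map (rfl : n = n) (LinearMap.id : X →ₗ[KLRAlg D] X)
      (Conv.map (rfl : l = l) (LinearMap.id : L →ₗ[KLRAlg D] L) u) y) =
    Conv.map (rfl : l + p = l + p) (Conv.map (rfl : l = l) (LinearMap.id : L →ₗ[KLRAlg D] L) u)
      (LinearMap.id : X →ₗ[KLRAlg D] X) (UU R1 U0 y) := by
  rw [UU_apply, UU_apply, assoc3s, map_swap, assoc3, map_sq_right h, assoc_symm_nat]

theorem UU_z (h : ∀ y, R1 (Conv.map (rfl : n = n) (LinearMap.id : X →ₗ[KLRAlg D] X) z y) =
      Conv.map (rfl : l = l) z (LinearMap.id : X →ₗ[KLRAlg D] X) (R1 y))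
    (y : Conv D n X (Conv D l L P)) :
    UU R1 U0 (Conv.map (rfl : n = n) (LinearMap.id : X →ₗ[KLRAlg D] X)
      (Conv.map (rfl : l = l) z (LinearMap.id : P →ₗ[KLRAlg D] P)) y) =
    Conv.map (rfl : l + p = l + p) (Conv.map (rfl : l = l) z (LinearMap.id : P →ₗ[KLRAlg D] P))
      (LinearMap.id : X →ₗ[KLRAlg D] X) (UU R1 U0 y) := by
  rw [UU_apply, UU_apply, assoc_symm_nat, map_sq_left _ h, assoc1, ← map_swap, assoc1s]

theorem UV_u (h : ∀ y, V0 (Conv.map (rfl : p = p) u (LinearMap.id : X →ₗ[KLRAlg D] X) y) =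
      Conv.map (rfl : n = n) (LinearMap.id : X →ₗ[KLRAlg D] X) u (V0 y))
    (y : Conv D (l + p) (Conv D l L P) X) :
    UV R2 V0 (Conv.map (rfl : l + p = l + p)
      (Conv.map (rfl : l = l) (LinearMap.id : L →ₗ[KLRAlg D] L) u)
      (LinearMap.id : X →ₗ[KLRAlg D] X) y) =
    Conv.map (rfl : n = n) (LinearMap.id : X →ₗ[KLRAlg D] X)
      (Conv.map (rfl : l = l) (LinearMap.id : L →ₗ[KLRAlg D] L) u) (UV R2 V0 y) := by
  rw [UV_apply, UV_apply, assoc_nat, map_sq_right h, assoc3s, map_swap, assoc3]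

theorem UV_z (h : ∀ y, R2 (Conv.map (rfl : l = l) z (LinearMap.id : X →ₗ[KLRAlg D] X) y) =
      Conv.map (rfl : n = n) (LinearMap.id : X →ₗ[KLRAlg D] X) z (R2 y))
    (y : Conv D (l + p) (Conv D l L P) X) :
    UV R2 V0 (Conv.map (rfl : l + p = l + p)
      (Conv.map (rfl : l = l) z (LinearMap.id : P →ₗ[KLRAlg D] P))
      (LinearMap.id : X →ₗ[KLRAlg D] X) y) =
    Conv.map (rfl : n = n) (LinearMap.id : X →ₗ[KLRAlg D] X)
      (Conv.map (rfl : l = l) z (LinearMap.id : P →ₗ[KLRAlg D] P)) (UV R2 V0 y) := by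
  rw [UV_apply, UV_apply, assoc1, ← map_swap, assoc1s, map_sq_left _ h, assoc_nat]

theorem UV_UU {c c1 : K} {N N1 : ℕ}
    (hU : ∀ y, V0 (U0 y) =
      c • ((Conv.map (rfl : n = n) (LinearMap.id : X →ₗ[KLRAlg D] X) u) ^ N) y)
    (hR : ∀ y, R2 (R1 y) =
      c1 • ((Conv.map (rfl : n = n) (LinearMap.id : X →ₗ[KLRAlg D] X) z) ^ N1) y)
    (y : Conv D n X (Conv D l L P)) :
    UV R2 V0 (UU R1 U0 y) = (c * c1) •
      ((Conv.map (rfl : n = n) (LinearMap.id : X →ₗ[KLRAlg D] X)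
        (Conv.map (rfl : l = l) (LinearMap.id : L →ₗ[KLRAlg D] L) u)) ^ N)
      (((Conv.map (rfl : n = n) (LinearMap.id : X →ₗ[KLRAlg D] X)
        (Conv.map (rfl : l = l) z (LinearMap.id : P →ₗ[KLRAlg D] P))) ^ N1) y) := by
  rw [UU_apply, UV_apply, LinearEquiv.apply_symm_apply, Conv.map_map]
  have h1 := map_right_eq (m := l) (M := L) (F := V0 ∘ₗ U0) hU
  rw [LinearMap.id_comp, h1, smulE, smulK, smulE]
  -- move `u`
  have e1 : ∀ w : Conv D l L (Conv D n X P), (Conv.assoc D l n L X P).symm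
      (((Conv.map (rfl : l = l) (LinearMap.id : L →ₗ[KLRAlg D] L)
        (Conv.map (rfl : n = n) (LinearMap.id : X →ₗ[KLRAlg D] X) u)) ^ N) w) =
      ((Conv.map (rfl : l + n = l + n)
        (LinearMap.id : Conv D l L X →ₗ[KLRAlg D] Conv D l L X) u) ^ N)
          ((Conv.assoc D l n L X P).symm w) :=
    pow_semi (Conv.assoc D l n L X P).symm.toLinearMap _ _ (fun w => assoc3s u w) N
  have e2 : ∀ w : Conv D (l + n) (Conv D l L X) P, Conv.map (Nat.add_comm l n) R2
      (LinearMap.id : P →ₗ[KLRAlg D] P) (((Conv.map (rfl : l + n = l + n)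
        (LinearMap.id : Conv D l L X →ₗ[KLRAlg D] Conv D l L X) u) ^ N) w) =
      ((Conv.map (rfl : n + l = n + l)
        (LinearMap.id : Conv D n X L →ₗ[KLRAlg D] Conv D n X L) u) ^ N)
          (Conv.map (Nat.add_comm l n) R2 (LinearMap.id : P →ₗ[KLRAlg D] P) w) :=
    pow_semi (Conv.map (Nat.add_comm l n) R2 (LinearMap.id : P →ₗ[KLRAlg D] P)) _ _
      (fun w => map_swap _ R2 u w) N
  have e3 : ∀ w : Conv D (n + l) (Conv D n X L) P, Conv.assoc D n l X L P
      (((Conv.map (rfl : n + l = n + l)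
        (LinearMap.id : Conv D n X L →ₗ[KLRAlg D] Conv D n X L) u) ^ N) w) =
      ((Conv.map (rfl : n = n) (LinearMap.id : X →ₗ[KLRAlg D] X)
        (Conv.map (rfl : l = l) (LinearMap.id : L →ₗ[KLRAlg D] L) u)) ^ N)
          (Conv.assoc D n l X L P w) :=
    pow_semi (Conv.assoc D n l X L P).toLinearMap _ _ (fun w => assoc3 u w) N
  rw [e1, e2, e3, LinearEquiv.symm_apply_apply, Conv.map_map]
  have h2 := map_left_eq (m := n + l) (N := P) (F := R2 ∘ₗ R1) hR
  have h2' : ∀ w : Conv D (n + l) (Conv D n X L) P,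
      Conv.map ((Nat.add_comm n l).trans (Nat.add_comm l n)) (R2 ∘ₗ R1)
        ((LinearMap.id : P →ₗ[KLRAlg D] P) ∘ₗ LinearMap.id) w =
      c1 • ((Conv.map (rfl : n + l = n + l)
        (Conv.map (rfl : n = n) (LinearMap.id : X →ₗ[KLRAlg D] X) z)
          (LinearMap.id : P →ₗ[KLRAlg D] P)) ^ N1) w := h2
  rw [h2', smulE, smulK]
  have e4 : ∀ w : Conv D (n + l) (Conv D n X L) P, Conv.assoc D n l X L P
      (((Conv.map (rfl : n + l = n + l)
        (Conv.map (rfl : n = n) (LinearMap.id : X →ₗ[KLRAlg D] X) z)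
          (LinearMap.id : P →ₗ[KLRAlg D] P)) ^ N1) w) =
      ((Conv.map (rfl : n = n) (LinearMap.id : X →ₗ[KLRAlg D] X)
        (Conv.map (rfl : l = l) z (LinearMap.id : P →ₗ[KLRAlg D] P))) ^ N1)
          (Conv.assoc D n l X L P w) :=
    pow_semi (Conv.assoc D n l X L P).toLinearMap _ _ (fun w => assoc_nat _ _ _ w) N1
  rw [e4, LinearEquiv.apply_symm_apply, smul_smul]

theorem UU_UV {c c2 : K} {N N2 : ℕ}
    (hU : ∀ y, U0 (V0 y) =
      c • ((Conv.map (rfl : p = p) u (LinearMap.id : X →ₗ[KLRAlg D] X)) ^ N) y)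
    (hR : ∀ y, R1 (R2 y) =
      c2 • ((Conv.map (rfl : l = l) z (LinearMap.id : X →ₗ[KLRAlg D] X)) ^ N2) y)
    (y : Conv D (l + p) (Conv D l L P) X) :
    UU R1 U0 (UV R2 V0 y) = (c * c2) •
      ((Conv.map (rfl : l + p = l + p)
        (Conv.map (rfl : l = l) (LinearMap.id : L →ₗ[KLRAlg D] L) u)
          (LinearMap.id : X →ₗ[KLRAlg D] X)) ^ N)
      (((Conv.map (rfl : l + p = l + p)
        (Conv.map (rfl : l = l) z (LinearMap.id : P →ₗ[KLRAlg D] P))
          (LinearMap.id : X →ₗ[KLRAlg D] X)) ^ N2) y) := by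
  rw [UV_apply, UU_apply, LinearEquiv.symm_apply_apply, Conv.map_map]
  have h2 := map_left_eq (m := l + n) (N := P) (F := R1 ∘ₗ R2) hR
  have h2' : ∀ w : Conv D (l + n) (Conv D l L X) P,
      Conv.map ((Nat.add_comm l n).trans (Nat.add_comm n l)) (R1 ∘ₗ R2)
        ((LinearMap.id : P →ₗ[KLRAlg D] P) ∘ₗ LinearMap.id) w =
      c2 • ((Conv.map (rfl : l + n = l + n)
        (Conv.map (rfl : l = l) z (LinearMap.id : X →ₗ[KLRAlg D] X))
          (LinearMap.id : P →ₗ[KLRAlg D] P)) ^ N2) w := h2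
  rw [h2', smulE, smulK, smulE]
  have e1 : ∀ w : Conv D (l + n) (Conv D l L X) P, Conv.assoc D l n L X P
      (((Conv.map (rfl : l + n = l + n)
        (Conv.map (rfl : l = l) z (LinearMap.id : X →ₗ[KLRAlg D] X))
          (LinearMap.id : P →ₗ[KLRAlg D] P)) ^ N2) w) =
      ((Conv.map (rfl : l = l) z
        (LinearMap.id : Conv D n X P →ₗ[KLRAlg D] Conv D n X P)) ^ N2)
          (Conv.assoc D l n L X P w) :=
    pow_semi (Conv.assoc D l n L X P).toLinearMap _ _ (fun w => assoc1 z w) N2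
  have e2 : ∀ w : Conv D l L (Conv D n X P),
      Conv.map (rfl : l = l) (LinearMap.id : L →ₗ[KLRAlg D] L) U0
      (((Conv.map (rfl : l = l) z
        (LinearMap.id : Conv D n X P →ₗ[KLRAlg D] Conv D n X P)) ^ N2) w) =
      ((Conv.map (rfl : l = l) z
        (LinearMap.id : Conv D p P X →ₗ[KLRAlg D] Conv D p P X)) ^ N2)
          (Conv.map (rfl : l = l) (LinearMap.id : L →ₗ[KLRAlg D] L) U0 w) :=
    pow_semi (Conv.map (rfl : l = l) (LinearMap.id : L →ₗ[KLRAlg D] L) U0) _ _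
      (fun w => (map_swap _ z U0 w).symm) N2
  have e3 : ∀ w : Conv D l L (Conv D p P X), (Conv.assoc D l p L P X).symm
      (((Conv.map (rfl : l = l) z
        (LinearMap.id : Conv D p P X →ₗ[KLRAlg D] Conv D p P X)) ^ N2) w) =
      ((Conv.map (rfl : l + p = l + p)
        (Conv.map (rfl : l = l) z (LinearMap.id : P →ₗ[KLRAlg D] P))
          (LinearMap.id : X →ₗ[KLRAlg D] X)) ^ N2) ((Conv.assoc D l p L P X).symm w) :=
    pow_semi (Conv.assoc D l p L P X).symm.toLinearMap _ _ (fun w => assoc1s z w) N2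
  rw [e1, LinearEquiv.apply_symm_apply, e2, Conv.map_map]
  have h1 := map_right_eq (m := l) (M := L) (F := U0 ∘ₗ V0) hU
  rw [LinearMap.id_comp, h1, smulK, smulE, e3]
  have e4 : ∀ w : Conv D l L (Conv D p P X), (Conv.assoc D l p L P X).symm
      (((Conv.map (rfl : l = l) (LinearMap.id : L →ₗ[KLRAlg D] L)
        (Conv.map (rfl : p = p) u (LinearMap.id : X →ₗ[KLRAlg D] X))) ^ N) w) =
      ((Conv.map (rfl : l + p = l + p)
        (Conv.map (rfl : l = l) (LinearMap.id : L →ₗ[KLRAlg D] L) u)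
          (LinearMap.id : X →ₗ[KLRAlg D] X)) ^ N) ((Conv.assoc D l p L P X).symm w) :=
    pow_semi (Conv.assoc D l p L P X).symm.toLinearMap _ _ (fun w => assoc_symm_nat _ _ _ w) N
  rw [e4, LinearEquiv.symm_apply_apply, smul_smul, mul_comm c2 c]
  congr 1
  refine pow_swap _ _ (fun w => ?_) N2 N y
  refine map_sq_left _ (fun v => ?_) w
  exact map_swap _ z u v

end core

section deg

variable {m n : ℕ} {M N L P : Type}
  [AddCommGroup M] [Module K M] [Module (KLRAlg D) M] [IsScalarTower K (KLRAlg D) M]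
  [AddCommGroup N] [Module K N] [Module (KLRAlg D) N] [IsScalarTower K (KLRAlg D) N]
  [AddCommGroup L] [Module K L] [Module (KLRAlg D) L] [IsScalarTower K (KLRAlg D) L]
  [AddCommGroup P] [Module K P] [Module (KLRAlg D) P] [IsScalarTower K (KLRAlg D) P]
  {gM : Grd D M} {gN : Grd D N} {gL : Grd D L} {gP : Grd D P}

theorem homDeg_of_mk3 {s : ℤ} {f : Conv D (m + n) (Conv D m M N) L →ₗ[KLRAlg D] P}
    (h : ∀ p q r u v w, gM.Hm p u → gN.Hm q v → gL.Hm r w → gP.Hm (p + q + r + s)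
      (f (Conv.mk D (m + n) (Conv D m M N) L (Conv.mk D m M N u v) w))) :
    HomDeg (Grd.conv (m + n) (Grd.conv m gM gN) gL) gP s f := by
  have h1 : gP.rho.comp f = ((Lau.shift D P s).comp (Lau.map f)).comp
      (Grd.conv (m + n) (Grd.conv m gM gN) gL).rho := by
    apply Conv.hom_ext₃
    intro u v w
    induction u using gM.induction with
    | h0 => simp
    | hadd u u' hu hu' =>
      rw [map_add, LinearMap.add_apply, map_add, LinearMap.add_apply, map_add, map_add, hu, hu']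
    | h p u hu =>
      induction v using gN.induction with
      | h0 => simp
      | hadd v v' hv hv' =>
        rw [map_add, map_add, LinearMap.add_apply, map_add, map_add, hv, hv']
      | h q v hv =>
        induction w using gL.induction with
        | h0 => simp
        | hadd w w' hw hw' => rw [map_add, map_add, map_add, hw, hw']
        | h r w hw =>
          have h2 := h p q r u v w hu hv hw
          have h3 : (Grd.conv (m + n) (Grd.conv m gM gN) gL).Hm (p + q + r)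
              (Conv.mk D (m + n) (Conv D m M N) L (Conv.mk D m M N u v) w) :=
            (hu.mk m hv).mk (m + n) hw
          unfold Grd.Hm at h2 h3
          rw [LinearMap.comp_apply, h2, LinearMap.comp_apply, h3, LinearMap.comp_apply,
            Lau.map_sg, Lau.shift_sg]
  exact fun u => LinearMap.congr_fun h1 u

theorem assoc_homDeg : HomDeg (Grd.conv (m + n) (Grd.conv m gM gN) gL)
    (Grd.conv m gM (Grd.conv n gN gL)) 0 (Conv.assoc D m n M N L).toLinearMap := by
  refine homDeg_of_mk3 (f := (Conv.assoc D m n M N L).toLinearMap) fun p q r u v w hu hv hw => ?_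
  have h : (Grd.conv m gM (Grd.conv n gN gL)).Hm (p + (q + r))
      (Conv.mk D m M (Conv D n N L) u (Conv.mk D n N L v w)) := hu.mk m (hv.mk n hw)
  rw [LinearEquiv.coe_coe, Conv.assoc_mk, add_zero, add_assoc]
  exact h

theorem assoc_symm_homDeg : HomDeg (Grd.conv m gM (Grd.conv n gN gL))
    (Grd.conv (m + n) (Grd.conv m gM gN) gL) 0 (Conv.assoc D m n M N L).symm.toLinearMap := by
  have h : (Conv.assoc D m n M N L).toLinearMap.comp
      (Conv.assoc D m n M N L).symm.toLinearMap = LinearMap.id := by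
    apply LinearMap.ext
    intro y
    exact (Conv.assoc D m n M N L).apply_symm_apply y
  refine HomDeg.of_comp_left (s := 0) (s' := 0)
    (f := (Conv.assoc D m n M N L).symm.toLinearMap)
    (g := (Conv.assoc D m n M N L).toLinearMap)
    (assoc_homDeg (gM := gM) (gN := gN) (gL := gL)) (Conv.assoc D m n M N L).injective ?_
  rw [h]
  exact HomDeg.id

end deg

section degU

variable {n l p : ℕ} {X L P : Type}
  [AddCommGroup X] [Module K X] [Module (KLRAlg D) X] [IsScalarTower K (KLRAlg D) X]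
  [AddCommGroup L] [Module K L] [Module (KLRAlg D) L] [IsScalarTower K (KLRAlg D) L]
  [AddCommGroup P] [Module K P] [Module (KLRAlg D) P] [IsScalarTower K (KLRAlg D) P]
  {R1 : Conv D n X L →ₗ[KLRAlg D] Conv D l L X}
  {R2 : Conv D l L X →ₗ[KLRAlg D] Conv D n X L}
  {U0 : Conv D n X P →ₗ[KLRAlg D] Conv D p P X} {V0 : Conv D p P X →ₗ[KLRAlg D] Conv D n X P}
  {gX : Grd D X} {gL : Grd D L} {gP : Grd D P} {s t : ℤ}

theorem UU_homDeg (hR : HomDeg (Grd.conv n gX gL) (Grd.conv l gL gX) s R1)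
    (hU : HomDeg (Grd.conv n gX gP) (Grd.conv p gP gX) t U0) :
    HomDeg (Grd.conv n gX (Grd.conv l gL gP)) (Grd.conv (l + p) (Grd.conv l gL gP) gX)
      (0 + (s + 0) + 0 + (0 + t) + 0) (UU R1 U0) :=
  ((((assoc_symm_homDeg (m := n) (n := l) (gM := gX) (gN := gL) (gL := gP)).comp
    (HomDeg.map (Nat.add_comm n l) hR HomDeg.id)).comp assoc_homDeg).comp
      (HomDeg.map (rfl : l = l) HomDeg.id hU)).comp assoc_symm_homDeg

theorem UV_homDeg (hR : HomDeg (Grd.conv l gL gX) (Grd.conv n gX gL) s R2)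
    (hU : HomDeg (Grd.conv p gP gX) (Grd.conv n gX gP) t V0) :
    HomDeg (Grd.conv (l + p) (Grd.conv l gL gP) gX) (Grd.conv n gX (Grd.conv l gL gP))
      (0 + (0 + t) + 0 + (s + 0) + 0) (UV R2 V0) :=
  ((((assoc_homDeg (m := l) (n := p) (gM := gL) (gN := gP) (gL := gX)).comp
    (HomDeg.map (rfl : l = l) HomDeg.id hU)).comp assoc_symm_homDeg).comp
      (HomDeg.map (Nat.add_comm l n) hR HomDeg.id)).comp assoc_homDeg

end degU

/-- the weight of `L(j)` -/
theorem lt_wtOf (j : I) : WtOf D 1 (Lt D j) (fun i => if i = j then 1 else 0) := by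
  intro ν u hν hu hne i
  obtain ⟨k, rfl⟩ := List.length_eq_one_iff.1 hν
  rw [wdAt_zero_iff] at hu
  have hk : k = j := by
    by_contra h
    apply hne
    rw [← hu, Datum.eW, Datum.eW, map_one, mul_one, Lt.e_smul_ne D j h]
  subst hk
  show List.count i [k] = if i = k then 1 else 0
  rw [List.count_singleton]
  by_cases h : i = k
  · simp [h]
  · simp [h, Ne.symm h]

end XHBIG

open XHBIG in
/-- BIG: the maps for `L(j)_z ∘ P` -/
theorem Mo.I_BIG (h1 : Mo.StOneR D) (h2 : Mo.StOneL D) : Mo.StBig D := by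
  rintro P u X gX j ⟨U0, V0, c, c', N, N', δ, δ', hc, hc', e1, e2, e3, e4, d1, d2⟩
  obtain ⟨c1, N1, hc1, hR1⟩ := h1 X j
  obtain ⟨c2, N2, hc2, hR2⟩ := h2 X j
  have hL : IsStrand D 1 (Aff D (Lt D j)) := Aff.isStrand (Lt.isStrand D j)
  have hw : WtOf D 1 (Aff D (Lt D j)) (fun i => if i = j then 1 else 0) :=
    Aff.wtOf (lt_wtOf j)
  have a1 := UU_homDeg (gX := gX) (gL := Aff.grd (Lt.grd D j) (Lt.e_smul D j)) (gP := P.g)
    (HomDeg.Rm X.smp.strand hL X.wtOf hw) d1
  have a2 := UV_homDeg (gX := gX) (gL := Aff.grd (Lt.grd D j) (Lt.e_smul D j)) (gP := P.g)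
    (HomDeg.Rm hL X.smp.strand hw X.wtOf) d2
  refine ⟨UU (n := X.n) (l := 1) (p := P.n) (Conv.Rm X.smp.strand hL) U0,
    UV (n := X.n) (l := 1) (p := P.n) (Conv.Rm hL X.smp.strand) V0, c * c1, c' * c2,
    N, N', N1, N2, _, _, mul_ne_zero hc hc1, mul_ne_zero hc' hc2, UU_u (p := P.n) e1,
    UV_u (p := P.n) e2, UU_z (p := P.n) fun y => ?_, UV_z (p := P.n) fun y => ?_,
    UV_UU (p := P.n) e3 hR1, UU_UV (p := P.n) e4 hR2, a1, a2⟩
  · exact (LinearMap.congr_fun (Conv.Rm_map X.smp.strand hL X.smp.strand hL LinearMap.id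
      (Aff.Z D (Lt D j))) y).symm
  · exact (LinearMap.congr_fun (Conv.Rm_map hL X.smp.strand hL X.smp.strand
      (Aff.Z D (Lt D j)) LinearMap.id) y).symm

end Pool.Agent.KLR
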