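import Pool.Agent.Work.MP_e487d8_al.Mo.Hd.Defs

/-! MP_e487d8_al, block HD, item DESC: descent of the maps to the quotient by `z - u^k`. -/

set_option autoImplicit false
set_option linter.unusedSectionVars false

namespace Pool.Agent.KLR

variable {K I : Type} [Field K] [Fintype I] [DecidableEq I]

namespace XHDESC

/-! ### pure algebra -/
section alg

variable {R V W V' W' : Type} [Ring R] [AddCommGroup V] [Module R V] [AddCommGroup W] [Module R W]
  [AddCommGroup V'] [Module R V'] [AddCommGroup W'] [Module R W']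

theorem pow_apply_comm (u : V →ₗ[R] V) (w : W →ₗ[R] W) (f : V →ₗ[R] W)
    (h : ∀ y, f (u y) = w (f y)) (k : ℕ) (y : V) : f ((u ^ k) y) = (w ^ k) (f y) := by
  induction k generalizing y with
  | zero => simp
  | succ k ih => rw [pow_succ, Module.End.mul_apply, ih, h, pow_succ, Module.End.mul_apply]

/-- a surjection with kernel in the kernel of `g` -/
theorem desc (p : V →ₗ[R] V') (hp : Function.Surjective p) (g : V →ₗ[R] W)
    (h : LinearMap.ker p ≤ LinearMap.ker g) : ∃ g' : V' →ₗ[R] W, ∀ y, g' (p y) = g y := by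
  refine ⟨((LinearMap.ker p).liftQ g h).comp
    ((LinearMap.quotKerEquivOfSurjective p hp).symm.toLinearMap), fun y => ?_⟩
  have h1 : (LinearMap.quotKerEquivOfSurjective p hp).symm (p y) =
      Submodule.Quotient.mk y := by
    rw [LinearEquiv.symm_apply_eq]
    rfl
  rw [LinearMap.comp_apply]
  change (LinearMap.ker p).liftQ g h ((LinearMap.quotKerEquivOfSurjective p hp).symm (p y)) = _
  rw [h1]
  rfl

/-- the map of the quotients -/
theorem desc₂ (p : V →ₗ[R] V') (hp : Function.Surjective p) (p' : W →ₗ[R] W') (u z : V →ₗ[R] V)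
    (u' z' : W →ₗ[R] W) (k : ℕ) (hk : LinearMap.ker p = LinearMap.range (z - u ^ k))
    (hk' : LinearMap.ker p' = LinearMap.range (z' - u' ^ k)) (U : V →ₗ[R] W)
    (hu : ∀ y, U (u y) = u' (U y)) (hz : ∀ y, U (z y) = z' (U y)) :
    ∃ UB : V' →ₗ[R] W', ∀ y, UB (p y) = p' (U y) := by
  refine desc p hp (p'.comp U) ?_
  intro y hy
  rw [hk] at hy
  obtain ⟨x, rfl⟩ := hy
  rw [LinearMap.mem_ker, LinearMap.comp_apply, LinearMap.sub_apply, map_sub, hz,
    pow_apply_comm u u' U hu, ← LinearMap.mem_ker, hk']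
  exact ⟨U x, rfl⟩

theorem q_z (p : V →ₗ[R] V') (u z : V →ₗ[R] V) (k : ℕ)
    (hk : LinearMap.ker p = LinearMap.range (z - u ^ k)) (v : V' →ₗ[R] V')
    (hv : ∀ y, v (p y) = p (u y)) (M : ℕ) (y : V) : p ((z ^ M) y) = (v ^ (k * M)) (p y) := by
  have h1 : ∀ y, p (z y) = (v ^ k) (p y) := by
    intro y
    rw [← pow_apply_comm u v p (fun y => (hv y).symm) k y, ← sub_eq_zero, ← map_sub,
      ← LinearMap.mem_ker, hk]
    exact ⟨y, rfl⟩
  rw [pow_apply_comm z (v ^ k) p h1 M y, pow_mul]

end alg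

section mp

variable {D : Datum K I} {M N M' N' : Type} [AddCommGroup M] [Module K M] [Module (KLRAlg D) M]
  [IsScalarTower K (KLRAlg D) M] [AddCommGroup N] [Module K N] [Module (KLRAlg D) N]
  [IsScalarTower K (KLRAlg D) N] [AddCommGroup M'] [Module K M'] [Module (KLRAlg D) M']
  [IsScalarTower K (KLRAlg D) M'] [AddCommGroup N'] [Module K N'] [Module (KLRAlg D) N']
  [IsScalarTower K (KLRAlg D) N']

theorem map_sub_right (m : ℕ) (f : M →ₗ[KLRAlg D] M') (g g' : N →ₗ[KLRAlg D] N') :
    Conv.map (rfl : m = m) f (g - g') = Conv.map (rfl : m = m) f g - Conv.map (rfl : m = m) f g' := by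
  apply Conv.hom_ext
  intro u v
  rw [LinearMap.sub_apply, Conv.map_mk, Conv.map_mk, Conv.map_mk, LinearMap.sub_apply, map_sub]

theorem map_sub_left (m : ℕ) (f f' : M →ₗ[KLRAlg D] M') (g : N →ₗ[KLRAlg D] N') :
    Conv.map (rfl : m = m) (f - f') g = Conv.map (rfl : m = m) f g - Conv.map (rfl : m = m) f' g := by
  apply Conv.hom_ext
  intro u v
  rw [LinearMap.sub_apply, Conv.map_mk, Conv.map_mk, Conv.map_mk, LinearMap.sub_apply, map_sub,
    LinearMap.sub_apply]

theorem map_pow_right (m : ℕ) (g : N →ₗ[KLRAlg D] N) (k : ℕ) :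
    Conv.map (rfl : m = m) (LinearMap.id : M →ₗ[KLRAlg D] M) (g ^ k) =
      (Conv.map (rfl : m = m) (LinearMap.id : M →ₗ[KLRAlg D] M) g) ^ k := by
  induction k with
  | zero =>
    apply Conv.hom_ext
    intro u v
    rw [Conv.map_mk, pow_zero, pow_zero]
    rfl
  | succ k ih =>
    rw [pow_succ, pow_succ, ← ih]
    apply Conv.hom_ext
    intro u v
    rw [Conv.map_mk, Module.End.mul_apply, Module.End.mul_apply, Conv.map_mk, Conv.map_mk]
    rfl

theorem map_pow_left (m : ℕ) (f : M →ₗ[KLRAlg D] M) (k : ℕ) :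
    Conv.map (rfl : m = m) (f ^ k) (LinearMap.id : N →ₗ[KLRAlg D] N) =
      (Conv.map (rfl : m = m) f (LinearMap.id : N →ₗ[KLRAlg D] N)) ^ k := by
  induction k with
  | zero =>
    apply Conv.hom_ext
    intro u v
    rw [Conv.map_mk, pow_zero, pow_zero]
    rfl
  | succ k ih =>
    rw [pow_succ, pow_succ, ← ih]
    apply Conv.hom_ext
    intro u v
    rw [Conv.map_mk, Module.End.mul_apply, Module.End.mul_apply, Conv.map_mk, Conv.map_mk]
    rfl

theorem ker_left {n m m' : ℕ} (h : m = m') (hb : S_basis D) (hN : IsStrand D n N)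
    (hM : IsStrand D m M) (hM' : IsStrand D m' M') (i : M →ₗ[KLRAlg D] M)
    (g : M →ₗ[KLRAlg D] M') (he : LinearMap.ker g = LinearMap.range i) :
    LinearMap.ker (Conv.map h g (LinearMap.id : N →ₗ[KLRAlg D] N)) =
      LinearMap.range (Conv.map (rfl : m = m) i (LinearMap.id : N →ₗ[KLRAlg D] N)) := by
  subst h
  exact LinearMap.exact_iff.1 (Conv.exact_left hb hN hM hM hM' i g (LinearMap.exact_iff.2 he))

end mp

end XHDESC

theorem Mo.I_DESC {D : Datum K I} (hb : S_basis D) : Mo.StDesc D := by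
  intro A B u z q uB k X hn hq hker huB hdq hL
  obtain ⟨U, U', c, c', N, N', M, M', δ, δ', hc, hc', hUu, hUu', hUz, hUz', h1, h2, hd, hd'⟩ := hL
  -- the two surjections
  have hBs : IsStrand D A.n B.M := hn ▸ B.strand
  set pR : Conv D X.n X.M A.M →ₗ[KLRAlg D] Conv D X.n X.M B.M :=
    Conv.map (rfl : X.n = X.n) (LinearMap.id : X.M →ₗ[KLRAlg D] X.M) q with hpR
  set pL : Conv D A.n A.M X.M →ₗ[KLRAlg D] Conv D B.n B.M X.M :=
    Conv.map hn q (LinearMap.id : X.M →ₗ[KLRAlg D] X.M) with hpL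
  have sR : Function.Surjective pR := Conv.map_surjective _ _ _ (fun x => ⟨x, rfl⟩) hq
  have sL : Function.Surjective pL := Conv.map_surjective _ _ _ hq (fun x => ⟨x, rfl⟩)
  have kR : LinearMap.ker pR = LinearMap.range (cr X A z - (cr X A u) ^ k) := by
    have := LinearMap.exact_iff.1 (Conv.exact_right hb X.strand A.strand A.strand hBs
      (z - u ^ k) q (LinearMap.exact_iff.2 hker))
    rw [XHDESC.map_sub_right, XHDESC.map_pow_right] at this
    exact this
  have kL : LinearMap.ker pL = LinearMap.range (cl X A z - (cl X A u) ^ k) := by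
    have := XHDESC.ker_left hn hb X.strand A.strand B.strand (z - u ^ k) q hker
    rw [XHDESC.map_sub_left, XHDESC.map_pow_left] at this
    exact this
  have vR : ∀ y, cr X B uB (pR y) = pR (cr X A u y) := by
    intro y
    have h : (cr X B uB).comp pR = pR.comp (cr X A u) := by
      apply Conv.hom_ext
      intro a b
      simp only [LinearMap.comp_apply, cr, hpR, Conv.map_mk, huB]
    exact LinearMap.congr_fun h y
  have vL : ∀ y, cl X B uB (pL y) = pL (cl X A u y) := by
    intro y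
    have h : (cl X B uB).comp pL = pL.comp (cl X A u) := by
      apply Conv.hom_ext
      intro a b
      simp only [LinearMap.comp_apply, cl, hpL, Conv.map_mk, huB]
    exact LinearMap.congr_fun h y
  have dR : HomDeg (Grd.conv X.n X.g A.g) (Grd.conv X.n X.g B.g) 0 pR := by
    have := HomDeg.map (rfl : X.n = X.n) (HomDeg.id (gM := X.g)) hdq
    simpa using this
  have dL : HomDeg (Grd.conv A.n A.g X.g) (Grd.conv B.n B.g X.g) 0 pL := by
    have := HomDeg.map hn hdq (HomDeg.id (gM := X.g))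
    simpa using this
  obtain ⟨UB, hUB⟩ := XHDESC.desc₂ pR sR pL (cr X A u) (cr X A z) (cl X A u) (cl X A z) k kR kL U
    hUu hUz
  obtain ⟨UB', hUB'⟩ := XHDESC.desc₂ pL sL pR (cl X A u) (cl X A z) (cr X A u) (cr X A z) k kL kR
    U' hUu' hUz'
  refine ⟨UB, UB', c, c', N + k * M, N' + k * M', δ, δ', hc, hc', ?_, ?_, ?_, ?_, ?_, ?_⟩
  · intro y
    obtain ⟨y, rfl⟩ := sR y
    rw [vR, hUB, hUu, hUB, vL]
  · intro y
    obtain ⟨y, rfl⟩ := sL y
    rw [vL, hUB', hUu', hUB', vR]
  · intro y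
    obtain ⟨y, rfl⟩ := sR y
    rw [hUB, hUB', h1]
    rw [LinearMap.map_smul_of_tower]
    rw [XHDESC.pow_apply_comm (cr X A u) (cr X B uB) pR (fun y => (vR y).symm),
      XHDESC.q_z pR (cr X A u) (cr X A z) k kR (cr X B uB) vR, pow_add, Module.End.mul_apply]
  · intro y
    obtain ⟨y, rfl⟩ := sL y
    rw [hUB', hUB, h2]
    rw [LinearMap.map_smul_of_tower]
    rw [XHDESC.pow_apply_comm (cl X A u) (cl X B uB) pL (fun y => (vL y).symm),
      XHDESC.q_z pL (cl X A u) (cl X A z) k kL (cl X B uB) vL, pow_add, Module.End.mul_apply]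
  · refine HomDeg.of_comp_right dR sR (s := 0) ?_
    have : UB.comp pR = pL.comp U := LinearMap.ext fun y => hUB y
    rw [this]
    have h := hd.comp dL
    rwa [add_comm] at h
  · refine HomDeg.of_comp_right dL sL (s := 0) ?_
    have : UB'.comp pL = pR.comp U' := LinearMap.ext fun y => hUB' y
    rw [this]
    have h := hd'.comp dR
    rwa [add_comm] at h

end Pool.Agent.KLR
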