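import Pool.Agent.Work.MP_e487d8_al.Mo.Hd.Defs

/-! MP_e487d8_al, block HD, item FILT: the filtration of `G / u^m G`. -/

set_option autoImplicit false

namespace Pool.Agent.KLR

variable {K I : Type} [Field K] [Fintype I] [DecidableEq I]

namespace XHFILT

section

variable {R : Type*} [Ring R] {A B C : Type*} [AddCommGroup A] [Module R A] [AddCommGroup B]
  [Module R B] [AddCommGroup C] [Module R C]

/-- the map `B → C` induced by `f : A → C` along the surjection `p : A → B` -/
theorem desc (p : A →ₗ[R] B) (hp : Function.Surjective p) (f : A →ₗ[R] C)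
    (h : LinearMap.ker p ≤ LinearMap.ker f) : ∃ g : B →ₗ[R] C, ∀ a, g (p a) = f a := by
  refine ⟨((LinearMap.ker p).liftQ f h) ∘ₗ (p.quotKerEquivOfSurjective hp).symm.toLinearMap,
    fun a => ?_⟩
  have h2 : (p.quotKerEquivOfSurjective hp).symm (p a) = Submodule.Quotient.mk a := by
    rw [LinearEquiv.symm_apply_eq]
    rfl
  simp only [LinearMap.comp_apply, LinearEquiv.coe_coe, h2]
  rfl

end

variable {D : Datum K I}

/-- the graded quotient by the image of a homogeneous endomorphism -/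
theorem quot (G : GV D) (u : G.M →ₗ[KLRAlg D] G.M) (t : ℤ) (hu : HomDeg G.g G.g t u) :
    ∃ (G₂ : GV D) (q : G.M →ₗ[KLRAlg D] G₂.M), Function.Surjective q ∧
      LinearMap.ker q = LinearMap.range u ∧ HomDeg G.g G₂.g 0 q := by
  let Q := G.M ⧸ LinearMap.range u
  let q : G.M →ₗ[KLRAlg D] Q := (LinearMap.range u).mkQ
  have hq : Function.Surjective q := (LinearMap.range u).mkQ_surjective
  have h : ∀ v d, q v = 0 → q (G.g.pr d v) = 0 := by
    intro v d hv
    rw [Submodule.mkQ_apply, Submodule.Quotient.mk_eq_zero] at hv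
    rw [Submodule.mkQ_apply, Submodule.Quotient.mk_eq_zero]
    obtain ⟨w, rfl⟩ := hv
    refine ⟨G.g.pr (d - t) w, ?_⟩
    rw [← hu.pr, sub_add_cancel]
  exact ⟨⟨Q, G.g.ofSurj q hq h⟩, q, hq, Submodule.ker_mkQ _, G.g.ofSurj_hom q hq h⟩

end XHFILT

variable (D : Datum K I)

theorem Mo.I_FILT (hX : Mo.StOccX D) : Mo.StFilt D := by
  intro Z G G₀ G' u p q m e d hZ hR hu hp hq hk hq0 hocc
  induction m generalizing G' q d with
  | zero =>
    exfalso
    obtain ⟨W, i, r, a, b, hi, hr, -, -, -⟩ := hocc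
    have h1 : ∀ x : G'.M, x = 0 := by
      intro x
      obtain ⟨g, rfl⟩ := hq x
      have : g ∈ LinearMap.ker q := by
        rw [hk, pow_zero]
        exact ⟨g, rfl⟩
      exact this
    have hn := hZ.nontrivial
    obtain ⟨z, hz⟩ := exists_ne (0 : Z.M)
    obtain ⟨w, rfl⟩ := hr z
    apply hz
    have : w = 0 := hi ((h1 _).trans (h1 _).symm)
    rw [this, map_zero]
  | succ m ih =>
    obtain ⟨G₂, q₂, hq₂, hk₂, hd₂⟩ := XHFILT.quot G (u ^ m) _ (hu.pow m)
    have hle : LinearMap.ker p ≤ LinearMap.ker (q ∘ₗ (u ^ m)) := by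
      intro g hg
      rw [hR.ker] at hg
      obtain ⟨g', rfl⟩ := hg
      have : (u ^ m) (u g') ∈ LinearMap.ker q := by
        rw [hk]
        exact ⟨g', by rw [pow_succ, Module.End.mul_apply]⟩
      exact this
    obtain ⟨i, hi⟩ := XHFILT.desc p hR.surj (q ∘ₗ (u ^ m)) hle
    have hle' : LinearMap.ker q ≤ LinearMap.ker q₂ := by
      rw [hk, hk₂]
      rintro _ ⟨g, rfl⟩
      exact ⟨u g, by rw [pow_succ, Module.End.mul_apply]⟩
    obtain ⟨r, hr⟩ := XHFILT.desc q hq q₂ hle'
    have hinj : Function.Injective i := by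
      rw [injective_iff_map_eq_zero]
      intro x hx
      obtain ⟨g, rfl⟩ := hR.surj x
      rw [hi, LinearMap.comp_apply] at hx
      have h1 : (u ^ m) g ∈ LinearMap.ker q := hx
      rw [hk] at h1
      obtain ⟨g', hg'⟩ := h1
      rw [pow_succ, Module.End.mul_apply] at hg'
      rw [← hR.pow_inj m hg', hR.apply_eq]
    have hsur : Function.Surjective r := by
      intro x
      obtain ⟨g, rfl⟩ := hq₂ x
      exact ⟨q g, hr g⟩
    have hker : LinearMap.ker r = LinearMap.range i := by
      ext x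
      constructor
      · intro hx
        obtain ⟨g, rfl⟩ := hq x
        rw [LinearMap.mem_ker, hr] at hx
        have h1 : g ∈ LinearMap.ker q₂ := hx
        rw [hk₂] at h1
        obtain ⟨g', rfl⟩ := h1
        exact ⟨p g', by rw [hi, LinearMap.comp_apply]⟩
      · rintro ⟨y, rfl⟩
        obtain ⟨g, rfl⟩ := hR.surj y
        rw [LinearMap.mem_ker, hi, LinearMap.comp_apply, hr]
        have h1 : (u ^ m) g ∈ LinearMap.ker q₂ := by
          rw [hk₂]
          exact ⟨g, rfl⟩
        exact h1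
    have hdi : HomDeg G₀.g G'.g (m * e) i := by
      refine HomDeg.of_comp_right hp hR.surj ?_
      have h1 : i ∘ₗ p = q ∘ₗ (u ^ m) := by
        ext g
        exact hi g
      rw [h1]
      convert (hu.pow m).comp hq0 using 1
      ring
    have hdr : HomDeg G'.g G₂.g 0 r := by
      refine HomDeg.of_comp_right hq0 hq ?_
      have h1 : r ∘ₗ q = q₂ := by
        ext g
        exact hr g
      rw [h1, add_zero]
      exact hd₂
    rcases hX Z G₀ G' G₂ i r (m * e) 0 d hZ hinj hsur hker hdi hdr hocc with h | h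
    · exact ⟨m, Nat.lt_succ_self m, h⟩
    · rw [add_zero] at h
      obtain ⟨j, hj, hj'⟩ := ih G₂ q₂ d hq₂ hk₂ hd₂ h
      exact ⟨j, hj.trans (Nat.lt_succ_self m), hj'⟩

end Pool.Agent.KLR
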