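import Pool.Agent.Work.MP_e487d8_al.Mo.Hd.Defs
import Pool.Agent.Work.MP_e487d8_al.Rmat.Lead

/-! MP_e487d8_al, block HD, item HD: the degrees of the constituents of `X ∘ b` and `b ∘ X`. -/

set_option autoImplicit false

namespace Pool.Agent.KLR

variable {K I : Type} [Field K] [Fintype I] [DecidableEq I]

namespace XHHD

section

variable {D : Datum K I} {m m' n n' : ℕ} {W C N : Type}
  [AddCommGroup W] [Module K W] [Module (KLRAlg D) W] [IsScalarTower K (KLRAlg D) W]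
  [AddCommGroup C] [Module K C] [Module (KLRAlg D) C] [IsScalarTower K (KLRAlg D) C]
  [AddCommGroup N] [Module K N] [Module (KLRAlg D) N] [IsScalarTower K (KLRAlg D) N]
  {u : W →ₗ[KLRAlg D] W} {p : W →ₗ[KLRAlg D] C}

theorem redL (hb : S_basis D) (h : m = m') (hW : IsStrand D m W) (hr : Red u p)
    (hN : IsStrand D n N) :
    Red (Conv.map (rfl : m = m) u (LinearMap.id : N →ₗ[KLRAlg D] N))
      (Conv.map h p (LinearMap.id : N →ₗ[KLRAlg D] N)) := by
  subst h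
  have hA : IsAff D m u p := ⟨hW, hr⟩
  exact hA.redL hb hN

theorem redR (hb : S_basis D) (hW : IsStrand D m W) (hr : Red u p)
    (hN : IsStrand D n N) :
    Red (Conv.map (rfl : n = n) (LinearMap.id : N →ₗ[KLRAlg D] N) u)
      (Conv.map (rfl : n = n) (LinearMap.id : N →ₗ[KLRAlg D] N) p) := by
  have hA : IsAff D m u p := ⟨hW, hr⟩
  exact hA.redR hb hN

end

end XHHD

variable (D : Datum K I)

theorem Mo.I_HD (hb : S_basis D) (hP : Mo.StPi D) (hL : Mo.StLat D) : Mo.StHd D := by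
  intro b gb
  obtain ⟨P₀, f, t, hfd, hn₀, ⟨P, u, p, hn, hred, hu, hp, hlat⟩, hf, hft⟩ := hP b gb
  refine ⟨P₀, hfd, hn₀, fun X S gX gS s => ?_⟩
  obtain ⟨U, U', c, c', N, N', δ, δ', hc, hc', hU, hU', hUU, hUU', hdU, hdU'⟩ := hlat X gX
  have hS := S.smp.simple
  have hX := X.smp.strand
  -- the two lattices
  have rH : Red (cr (X.gm gX) P u) (Conv.map (rfl : X.n = X.n)
      (LinearMap.id : X.M →ₗ[KLRAlg D] X.M) p) := XHHD.redR hb P.strand hred hX
  have rG : Red (cl (X.gm gX) P u) (Conv.map hn p (LinearMap.id : X.M →ₗ[KLRAlg D] X.M)) :=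
    XHHD.redL hb hn P.strand hred hX
  have dH : HomDeg (Grd.conv X.n gX P.g) (Grd.conv X.n gX P.g) 2 (cr (X.gm gX) P u) := by
    have := HomDeg.map (rfl : X.n = X.n) (HomDeg.id (gM := gX)) hu
    rwa [zero_add] at this
  have dG : HomDeg (Grd.conv P.n P.g gX) (Grd.conv P.n P.g gX) 2 (cl (X.gm gX) P u) := by
    have := HomDeg.map (rfl : P.n = P.n) hu (HomDeg.id (gM := gX))
    rwa [add_zero] at this
  have dpH : HomDeg (Grd.conv X.n gX P.g) (Grd.conv X.n gX P₀.g) 0 (Conv.map (rfl : X.n = X.n)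
      (LinearMap.id : X.M →ₗ[KLRAlg D] X.M) p) := by
    have := HomDeg.map (rfl : X.n = X.n) (HomDeg.id (gM := gX)) hp
    rwa [zero_add] at this
  have dpG : HomDeg (Grd.conv P.n P.g gX) (Grd.conv P₀.n P₀.g gX) 0
      (Conv.map hn p (LinearMap.id : X.M →ₗ[KLRAlg D] X.M)) := by
    have := HomDeg.map hn hp (HomDeg.id (gM := gX))
    rwa [add_zero] at this
  have fin : ∀ (G₀ V : GV D) (D' : ℤ), (∀ (Z : GV D) (d : ℤ), IsSimpleModule (KLRAlg D) Z.M →
      Z.Occ V d → ∃ j : ℕ, Z.Occ G₀ (d + D' - j * 2)) →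
      ∀ (Z : SMod D) (gZ : Grd D Z.M) (d : ℤ), (Z.gm gZ).Occ V d →
        ∃ j : ℕ, (Z.gm gZ).Occ G₀ (d + D' - j) := by
    intro G₀ V D' h Z gZ d hd
    obtain ⟨j, hj⟩ := h (Z.gm gZ).toGV d Z.smp.simple hd
    refine ⟨j * 2, ?_⟩
    push_cast
    exact hj
  constructor
  · intro h hh hdh hmax
    obtain ⟨D', h1, h2⟩ := hL ((X.gm gX).conv P).toGV (P.conv (X.gm gX)).toGV
      ((X.gm gX).conv P₀).toGV (P₀.conv (X.gm gX)).toGV ((X.gm gX).conv (b.gm gb)).toGV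
      (S.gm gS).toGV (cr (X.gm gX) P u) (cl (X.gm gX) P u)
      (Conv.map (rfl : X.n = X.n) (LinearMap.id : X.M →ₗ[KLRAlg D] X.M) p)
      (Conv.map hn p (LinearMap.id : X.M →ₗ[KLRAlg D] X.M)) U U' c c' N N' 2 δ t s
      (Conv.map (rfl : X.n = X.n) (LinearMap.id : X.M →ₗ[KLRAlg D] X.M) f) h rH rG dH dG dpH dpG
      (by norm_num) hU hU' hc hc' hUU hUU' hdU
      (Conv.map_surjective rfl _ _ (fun v => ⟨v, rfl⟩) hf)
      (by
        have := HomDeg.map (rfl : X.n = X.n) (HomDeg.id (gM := gX)) hft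
        rwa [zero_add] at this) hh hdh hS hmax
    exact ⟨D', h1, fin _ _ D' h2⟩
  · intro h hh hdh hmax
    obtain ⟨D', h1, h2⟩ := hL (P.conv (X.gm gX)).toGV ((X.gm gX).conv P).toGV
      (P₀.conv (X.gm gX)).toGV ((X.gm gX).conv P₀).toGV ((b.gm gb).conv (X.gm gX)).toGV
      (S.gm gS).toGV (cl (X.gm gX) P u) (cr (X.gm gX) P u)
      (Conv.map hn p (LinearMap.id : X.M →ₗ[KLRAlg D] X.M))
      (Conv.map (rfl : X.n = X.n) (LinearMap.id : X.M →ₗ[KLRAlg D] X.M) p) U' U c' c N' N 2 δ' t s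
      (Conv.map hn₀ f (LinearMap.id : X.M →ₗ[KLRAlg D] X.M)) h rG rH dG dH dpG dpH
      (by norm_num) hU' hU hc' hc hUU' hUU hdU'
      (Conv.map_surjective hn₀ _ _ hf (fun v => ⟨v, rfl⟩))
      (by
        have := HomDeg.map hn₀ hft (HomDeg.id (gM := gX))
        rwa [add_zero] at this) hh hdh hS hmax
    exact ⟨D', h1, fin _ _ D' h2⟩

end Pool.Agent.KLR
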