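import Pool.Agent.Work.MP_e487d8_al.Mo.Hd.Defs

/-! MP_e487d8_al, block HD: the lattice lemma (item LAT). -/

set_option autoImplicit false

namespace Pool.Agent.KLR

variable {K I : Type} [Field K] [Fintype I] [DecidableEq I]

namespace XHLAT

section

variable {D : Datum K I} {M N P : Type} [AddCommGroup M] [Module K M] [Module (KLRAlg D) M]
  [IsScalarTower K (KLRAlg D) M] [AddCommGroup N] [Module K N] [Module (KLRAlg D) N]
  [IsScalarTower K (KLRAlg D) N] [AddCommGroup P] [Module K P] [Module (KLRAlg D) P]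
  [IsScalarTower K (KLRAlg D) P]

/-- the range of a homogeneous map is homogeneous -/
theorem pr_range {gM : Grd D M} {gN : Grd D N} {s : ℤ} {f : M →ₗ[KLRAlg D] N}
    (hf : HomDeg gM gN s f) (d : ℤ) {v : N} (hv : v ∈ LinearMap.range f) :
    gN.pr d v ∈ LinearMap.range f := by
  obtain ⟨u, rfl⟩ := hv
  refine ⟨gM.pr (d - s) u, ?_⟩
  rw [← hf.pr, sub_add_cancel]

/-- descent along a surjective map -/
theorem exists_desc (r : M →ₗ[KLRAlg D] N) (g : M →ₗ[KLRAlg D] P) (hr : Function.Surjective r)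
    (hk : LinearMap.ker r ≤ LinearMap.ker g) : ∃ p : N →ₗ[KLRAlg D] P, p.comp r = g := by
  refine ⟨(Submodule.liftQ _ g hk) ∘ₗ (r.quotKerEquivOfSurjective hr).symm.toLinearMap, ?_⟩
  ext a
  have h2 : (r.quotKerEquivOfSurjective hr).symm (r a) = Submodule.Quotient.mk a := by
    rw [LinearEquiv.symm_apply_eq]
    rfl
  simp only [LinearMap.comp_apply, LinearEquiv.coe_coe, h2]
  rfl

end

variable {D : Datum K I}

/-- a quotient of the image of a homogeneous map is a subquotient -/
theorem occ_of_factor (A B C : GV D) (f : A.M →ₗ[KLRAlg D] B.M) (g : A.M →ₗ[KLRAlg D] C.M)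
    (α γ : ℤ) (hf : HomDeg A.g B.g α f) (hg : HomDeg A.g C.g γ g) (hs : Function.Surjective g)
    (hk : LinearMap.ker f ≤ LinearMap.ker g) : C.Occ B (α - γ) := by
  have hmem : ∀ (v : LinearMap.range f) (d : ℤ),
      B.g.pr d ((LinearMap.range f).subtype v) ∈ LinearMap.range (LinearMap.range f).subtype := by
    intro v d
    rw [Submodule.range_subtype]
    exact pr_range hf d v.2
  have hi : Function.Injective (LinearMap.range f).subtype := Submodule.subtype_injective _
  have h1 : HomDeg (B.g.ofInj (LinearMap.range f).subtype hi hmem) B.g 0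
      (LinearMap.range f).subtype := Grd.ofInj_hom _ _ _ _
  have h2 : HomDeg A.g (B.g.ofInj (LinearMap.range f).subtype hi hmem) α f.rangeRestrict := by
    refine HomDeg.of_comp_left h1 hi ?_
    rw [add_zero]
    exact hf
  have hr : Function.Surjective f.rangeRestrict := f.surjective_rangeRestrict
  obtain ⟨p, hp⟩ := exists_desc f.rangeRestrict g hr (by rwa [LinearMap.ker_rangeRestrict])
  have h3 : HomDeg (B.g.ofInj (LinearMap.range f).subtype hi hmem) C.g (γ - α) p := by
    refine HomDeg.of_comp_right h2 hr ?_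
    rw [hp, add_sub_cancel]
    exact hg
  refine ⟨⟨LinearMap.range f, B.g.ofInj (LinearMap.range f).subtype hi hmem⟩,
    (LinearMap.range f).subtype, p, 0, γ - α, hi, ?_, h1, h3, by ring⟩
  intro c
  obtain ⟨a, rfl⟩ := hs c
  exact ⟨f.rangeRestrict a, LinearMap.congr_fun hp a⟩

end XHLAT

variable (D : Datum K I)

theorem Mo.I_LAT (hS : Mo.StOccS D) (hF : Mo.StFilt D) : Mo.StLat D := by
  intro H G H₀ G₀ V S uH uG pH pG U U' c c' N N' e δ t s π h hrH hrG huH huG hpH hpG _ hU hU' hc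
    hc' hUU hUU' hdU hπ hdπ hh hdh hsS hmax
  have hnt : Nontrivial S.M := IsSimpleModule.nontrivial (KLRAlg D) S.M
  have hUi : Function.Injective U := by
    rw [← LinearMap.ker_eq_bot, LinearMap.ker_eq_bot']
    intro y hy
    have h1 := hUU y
    rw [hy, map_zero] at h1
    have h2 : (uH ^ N) y = 0 := (smul_eq_zero.1 h1.symm).resolve_left hc
    exact hrH.pow_inj N (h2.trans (map_zero _).symm)
  have hUpow : ∀ (k : ℕ) (y : H.M), U ((uH ^ k) y) = (uG ^ k) (U y) := by
    intro k
    induction k with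
    | zero => intro y; rfl
    | succ k ih =>
      intro y
      rw [pow_succ, pow_succ, Module.End.mul_apply, Module.End.mul_apply, ih, hU]
  have hUpow' : ∀ (k : ℕ) (y : G.M), U' ((uG ^ k) y) = (uH ^ k) (U' y) := by
    intro k
    induction k with
    | zero => intro y; rfl
    | succ k ih =>
      intro y
      rw [pow_succ, pow_succ, Module.End.mul_apply, Module.End.mul_apply, ih, hU']
  -- the filtration
  let F : ℕ → Submodule (KLRAlg D) H.M := fun l => (LinearMap.range (uG ^ l)).comap U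
  let π' : H.M →ₗ[KLRAlg D] V.M := π.comp pH
  have hπ' : Function.Surjective π' := hπ.comp hrH.surj
  have hdπ' : HomDeg H.g V.g t π' := by
    have := hpH.comp hdπ
    rwa [zero_add] at this
  have hF0 : ∀ x : H.M, x ∈ F 0 := fun x => ⟨U x, rfl⟩
  -- `F (N + 1)` is killed
  have hFN : ∀ x ∈ F (N + 1), π' x = 0 := by
    rintro x ⟨g, hg⟩
    have h1 := hUU x
    rw [← hg, hUpow', pow_succ, Module.End.mul_apply, ← LinearMap.map_smul_of_tower] at h1
    have h2 : uH (U' g) = c • x := hrH.pow_inj N h1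
    have h3 : x = uH (U' (c⁻¹ • g)) := by
      rw [LinearMap.map_smul_of_tower, LinearMap.map_smul_of_tower, h2, smul_smul,
        inv_mul_cancel₀ hc, one_smul]
    change π (pH x) = 0
    rw [h3, hrH.apply_eq, map_zero]
  obtain ⟨l, ⟨x₀, hx₀, hx₀'⟩, hl⟩ : ∃ l : ℕ, (∃ x ∈ F l, h (π' x) ≠ 0) ∧
      ∀ x ∈ F (l + 1), h (π' x) = 0 := by
    by_contra hcon
    push Not at hcon
    have h1 : ∀ l : ℕ, ∃ x ∈ F l, h (π' x) ≠ 0 := by
      intro l
      induction l with
      | zero =>
        obtain ⟨s₀, hs₀⟩ := exists_ne (0 : S.M)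
        obtain ⟨v, rfl⟩ := hh s₀
        obtain ⟨x, rfl⟩ := hπ' v
        exact ⟨x, hF0 x, hs₀⟩
      | succ l ih => exact hcon l ih
    obtain ⟨x, hx, hx'⟩ := h1 (N + 1)
    rw [hFN x hx, map_zero] at hx'
    exact hx' rfl
  let j : F l →ₗ[KLRAlg D] H.M := (F l).subtype
  have hj : Function.Injective j := Submodule.subtype_injective _
  -- `F l` maps onto `V`
  have hsur : Function.Surjective (π'.comp j) := by
    have h1 : (F l).map π' = ⊤ := by
      by_contra hne
      exact hx₀' (hmax _ hne (Submodule.mem_map_of_mem hx₀))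
    intro v
    have h2 : v ∈ (F l).map π' := by rw [h1]; trivial
    obtain ⟨x, hx, rfl⟩ := h2
    exact ⟨⟨x, hx⟩, rfl⟩
  -- the grading of `F l`
  have hul : HomDeg G.g G.g (l * e) (uG ^ l) := huG.pow l
  have hmem : ∀ (v : F l) (d : ℤ), H.g.pr d (j v) ∈ LinearMap.range j := by
    intro v d
    rw [Submodule.range_subtype]
    change U (H.g.pr d v.1) ∈ LinearMap.range (uG ^ l)
    rw [← hdU.pr]
    exact XHLAT.pr_range hul _ v.2
  let A : GV D := ⟨F l, H.g.ofInj j hj hmem⟩
  have hdj : HomDeg A.g H.g 0 j := Grd.ofInj_hom H.g j hj hmem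
  have hdg : HomDeg A.g V.g t (π'.comp j) := by
    have := hdj.comp hdπ'
    rwa [zero_add] at this
  -- the map `φ`
  let φ : F l →ₗ[KLRAlg D] G.M :=
    (LinearEquiv.ofInjective (uG ^ l) (hrG.pow_inj l)).symm.toLinearMap ∘ₗ
      LinearMap.codRestrict (LinearMap.range (uG ^ l)) (U.comp j) (fun x => x.2)
  have hφ : ∀ x : F l, (uG ^ l) (φ x) = U x.1 := by
    intro x
    have h2 := (LinearEquiv.ofInjective (uG ^ l) (hrG.pow_inj l)).apply_symm_apply
      (LinearMap.codRestrict (LinearMap.range (uG ^ l)) (U.comp j) (fun x => x.2) x)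
    have h3 := congrArg Subtype.val h2
    rw [LinearEquiv.ofInjective_apply] at h3
    exact h3
  have hdφ : HomDeg A.g G.g (δ - l * e) φ := by
    refine HomDeg.of_comp_left hul (hrG.pow_inj l) ?_
    have h1 : (uG ^ l).comp φ = U.comp j := LinearMap.ext hφ
    rw [h1, sub_add_cancel]
    have := hdj.comp hdU
    rwa [zero_add] at this
  refine ⟨δ - l * e - t, ?_, ?_⟩
  · -- `S`
    have h1 : HomDeg A.g G₀.g (δ - l * e + 0) (pG.comp φ) := hdφ.comp hpG
    have h2 : HomDeg A.g S.g (t + -s) (h.comp (π'.comp j)) := hdg.comp hdh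
    have h3 := XHLAT.occ_of_factor A G₀ S _ _ _ _ h1 h2 (hh.comp hsur) (by
      intro x hx
      have hx1 : φ x ∈ LinearMap.ker pG := hx
      rw [hrG.ker] at hx1
      obtain ⟨g, hg⟩ := hx1
      refine hl x.1 ⟨g, ?_⟩
      rw [pow_succ, Module.End.mul_apply, hg, hφ])
    convert h3 using 1
    ring
  · intro Z d hZ hZV
    -- the quotient of `G` by `uG ^ m`
    have hum : HomDeg G.g G.g ((N' + 1 : ℕ) * e) (uG ^ (N' + 1)) := huG.pow (N' + 1)
    let R := LinearMap.range (uG ^ (N' + 1))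
    have hq : Function.Surjective R.mkQ := Submodule.mkQ_surjective _
    have hq0 : ∀ (u : G.M) (d : ℤ), R.mkQ u = 0 → R.mkQ (G.g.pr d u) = 0 := by
      intro u d hu
      rw [Submodule.mkQ_apply, Submodule.Quotient.mk_eq_zero] at hu ⊢
      exact XHLAT.pr_range hum d hu
    let G' : GV D := ⟨G.M ⧸ R, G.g.ofSurj R.mkQ hq hq0⟩
    have hdq : HomDeg G.g G'.g 0 R.mkQ := Grd.ofSurj_hom G.g R.mkQ hq hq0
    have h1 : HomDeg A.g G'.g (δ - l * e + 0) (R.mkQ.comp φ) := hdφ.comp hdq
    have h2 := XHLAT.occ_of_factor A G' V _ _ _ _ h1 hdg hsur (by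
      intro x hx
      have hx1 : φ x ∈ LinearMap.ker R.mkQ := hx
      rw [Submodule.ker_mkQ] at hx1
      obtain ⟨g, hg⟩ := hx1
      have hx2 : U x.1 = U ((uH ^ l) (uH (U' (c'⁻¹ • g)))) := by
        rw [← hφ, ← hg, hUpow, hU, LinearMap.map_smul_of_tower, LinearMap.map_smul_of_tower, hUU',
          smul_smul, inv_mul_cancel₀ hc', one_smul, pow_succ', Module.End.mul_apply]
      have hx3 : x.1 = uH ((uH ^ l) (U' (c'⁻¹ • g))) := by
        rw [hUi hx2, ← Module.End.mul_apply, ← pow_succ, pow_succ', Module.End.mul_apply]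
      change π (pH x.1) = 0
      rw [hx3, hrH.apply_eq, map_zero])
    obtain ⟨W, i, p, a, b, hi, hp, hdi, hdp, hab⟩ := h2
    have h3 : Z.Occ G' (d - b + a) := (hS Z W G' (d - b) a).2 i hi hdi
      ((hS Z W V d b).1 p hp hdp hZV)
    obtain ⟨k, _, hk⟩ := hF Z G G₀ G' uG pG R.mkQ (N' + 1) e (d - b + a) hZ hrG huG hpG hq
      (Submodule.ker_mkQ _) hdq h3
    refine ⟨k, ?_⟩
    convert hk using 1
    linarith

end Pool.Agent.KLR
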