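import Pool.Agent.Work.MP_e487d8_al.Mo.Hd.Defs

/-! MP_e487d8_al, item OCCS: subquotients of quotients and of submodules. -/

set_option autoImplicit false

namespace Pool.Agent.KLR

namespace XHOCCS

variable {K I : Type} [Field K] [Fintype I] [DecidableEq I] {D : Datum K I}

/-- a subquotient of a quotient is a subquotient -/
theorem quo {Z V V' : GV D} {d t : ℤ} {p : V.M →ₗ[KLRAlg D] V'.M}
    (hp : Function.Surjective p) (hpt : HomDeg V.g V'.g t p) (h : Z.Occ V' d) :
    Z.Occ V (d - t) := by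
  obtain ⟨W, i, p', a, b, hi, hp', hia, hpb, rfl⟩ := h
  have hmem : ∀ (v : V.M) (k : ℤ), p v ∈ LinearMap.range i →
      p (V.g.pr k v) ∈ LinearMap.range i := by
    rintro v k ⟨w, hw⟩
    refine ⟨W.g.pr (k + t - a) w, ?_⟩
    rw [← hpt.pr, ← hw, ← hia.pr, sub_add_cancel]
  have hrange : ∀ (v : ↥(Submodule.comap p (LinearMap.range i))) (k : ℤ),
      V.g.pr k ((Submodule.comap p (LinearMap.range i)).subtype v) ∈
        LinearMap.range (Submodule.comap p (LinearMap.range i)).subtype := by
    intro v k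
    rw [Submodule.range_subtype, Submodule.mem_comap]
    exact hmem _ _ (Submodule.mem_comap.1 v.2)
  have hinj : Function.Injective (Submodule.comap p (LinearMap.range i)).subtype :=
    Submodule.injective_subtype _
  have hcod : ∀ v : ↥(Submodule.comap p (LinearMap.range i)),
      (p ∘ₗ (Submodule.comap p (LinearMap.range i)).subtype) v ∈ LinearMap.range i :=
    fun v => Submodule.mem_comap.1 v.2
  obtain ⟨r, hr⟩ : ∃ r : ↥(Submodule.comap p (LinearMap.range i)) →ₗ[KLRAlg D] W.M,
      i ∘ₗ r = p ∘ₗ (Submodule.comap p (LinearMap.range i)).subtype := by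
    refine ⟨(LinearEquiv.ofInjective i hi).symm.toLinearMap ∘ₗ
      LinearMap.codRestrict (LinearMap.range i)
        (p ∘ₗ (Submodule.comap p (LinearMap.range i)).subtype) hcod, ?_⟩
    ext v
    have h2 := (LinearEquiv.ofInjective i hi).apply_symm_apply
      (LinearMap.codRestrict (LinearMap.range i)
        (p ∘ₗ (Submodule.comap p (LinearMap.range i)).subtype) hcod v)
    have h3 := congrArg Subtype.val h2
    rw [LinearEquiv.ofInjective_apply] at h3
    exact h3
  have hrs : Function.Surjective r := by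
    intro w
    obtain ⟨v, hv⟩ := hp (i w)
    refine ⟨⟨v, Submodule.mem_comap.2 ⟨w, hv.symm⟩⟩, hi ?_⟩
    have h4 := LinearMap.congr_fun hr ⟨v, Submodule.mem_comap.2 ⟨w, hv.symm⟩⟩
    exact h4.trans hv
  refine ⟨⟨↥(Submodule.comap p (LinearMap.range i)),
    V.g.ofInj (Submodule.comap p (LinearMap.range i)).subtype hinj hrange⟩,
    (Submodule.comap p (LinearMap.range i)).subtype, p' ∘ₗ r, 0, t - a + b, hinj,
    hp'.comp hrs, V.g.ofInj_hom _ hinj hrange, ?_, by ring⟩
  refine HomDeg.comp (s := t - a) (s' := b) (gN := W.g) ?_ hpb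
  refine HomDeg.of_comp_left (s := t - a) (s' := a) hia hi ?_
  rw [hr, sub_add_cancel]
  have h5 := HomDeg.comp (V.g.ofInj_hom _ hinj hrange) hpt
  rwa [zero_add] at h5

end XHOCCS

theorem Mo.I_OCCS {K I : Type} [Field K] [Fintype I] [DecidableEq I] (D : Datum K I) :
    Mo.StOccS D := by
  intro Z V V' d t
  refine ⟨fun p hp hpt h => XHOCCS.quo hp hpt h, fun i hi hit h => ?_⟩
  obtain ⟨W, j, p', a, b, hj, hp', hja, hpb, rfl⟩ := h
  exact ⟨W, i ∘ₗ j, p', a + t, b, hi.comp hj, hp', hja.comp hit, hpb, by ring⟩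

end Pool.Agent.KLR
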