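import Pool.Agent.Work.MP_e487d8_al.Mo.Hd.Defs

/-! MP_e487d8_al, block HD, item OCCX: simple subquotients and exact sequences. -/

set_option autoImplicit false

namespace Pool.Agent.KLR

variable {K I : Type} [Field K] [Fintype I] [DecidableEq I] (D : Datum K I)

theorem Mo.I_OCCX : Mo.StOccX D := by
  intro Z V₁ V V₂ i q a b d hZ hi hq hker hia hqb hocc
  obtain ⟨W, j, p, x, y, hj, hp, hjx, hpy, hd⟩ := hocc
  set f : W.M →ₗ[KLRAlg D] V₂.M := q.comp j with hf
  have hfd : HomDeg W.g V₂.g (x + b) f := hjx.comp hqb
  by_cases hc : p.comp (LinearMap.ker f).subtype = 0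
  · -- the quotient
    right
    have hle : LinearMap.ker f ≤ LinearMap.ker p := by
      intro w hw
      have h := LinearMap.congr_fun hc ⟨w, hw⟩
      exact h
    have hmem : ∀ (v : LinearMap.range f) (e : ℤ),
        V₂.g.pr e ((LinearMap.range f).subtype v) ∈ LinearMap.range (LinearMap.range f).subtype := by
      rintro ⟨_, w, rfl⟩ e
      rw [Submodule.range_subtype]
      refine ⟨W.g.pr (e - (x + b)) w, ?_⟩
      rw [← hfd.pr, sub_add_cancel]
      rfl
    set f' : W.M →ₗ[KLRAlg D] LinearMap.range f := f.rangeRestrict with hf'
    have hf's : Function.Surjective f' := f.surjective_rangeRestrict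
    have hsub := Grd.ofInj_hom V₂.g (LinearMap.range f).subtype
      (Submodule.injective_subtype _) hmem
    have hf'd : HomDeg W.g (V₂.g.ofInj (LinearMap.range f).subtype
        (Submodule.injective_subtype _) hmem) (x + b) f' := by
      refine HomDeg.of_comp_left hsub (Submodule.injective_subtype _) ?_
      rw [add_zero]
      exact hfd
    set p₂ : LinearMap.range f →ₗ[KLRAlg D] Z.M :=
      ((LinearMap.ker f).liftQ p hle).comp (f.quotKerEquivRange.symm).toLinearMap with hp₂
    have hp₂f : p₂.comp f' = p := by
      ext w
      show (LinearMap.ker f).liftQ p hle (f.quotKerEquivRange.symm (f' w)) = p w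
      have h1 : f.quotKerEquivRange.symm (f' w) = Submodule.Quotient.mk w := by
        rw [LinearEquiv.symm_apply_eq]
        rfl
      rw [h1]
      rfl
    refine ⟨⟨LinearMap.range f, V₂.g.ofInj (LinearMap.range f).subtype
      (Submodule.injective_subtype _) hmem⟩, (LinearMap.range f).subtype, p₂, 0, y - (x + b),
      Submodule.injective_subtype _, ?_, hsub, ?_, ?_⟩
    · intro z
      obtain ⟨w, rfl⟩ := hp z
      exact ⟨f' w, LinearMap.congr_fun hp₂f w⟩
    · refine HomDeg.of_comp_right hf'd hf's ?_
      rw [hp₂f, add_sub_cancel]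
      exact hpy
    · rw [hd]
      ring
  · -- the submodule
    left
    have hmem : ∀ (v : LinearMap.ker f) (e : ℤ),
        W.g.pr e ((LinearMap.ker f).subtype v) ∈ LinearMap.range (LinearMap.ker f).subtype := by
      rintro ⟨w, hw⟩ e
      rw [Submodule.range_subtype, LinearMap.mem_ker]
      show f (W.g.pr e w) = 0
      rw [← hfd.pr, LinearMap.mem_ker.1 hw, map_zero]
    have hsub := Grd.ofInj_hom W.g (LinearMap.ker f).subtype
      (Submodule.injective_subtype _) hmem
    have hran : ∀ w : LinearMap.ker f,
        (j.comp (LinearMap.ker f).subtype) w ∈ LinearMap.range i := by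
      rintro ⟨w, hw⟩
      rw [← hker]
      exact hw
    set k : LinearMap.ker f →ₗ[KLRAlg D] V₁.M :=
      ((LinearEquiv.ofInjective i hi).symm).toLinearMap.comp
        (LinearMap.codRestrict (LinearMap.range i) (j.comp (LinearMap.ker f).subtype) hran)
      with hk
    have hik : i.comp k = j.comp (LinearMap.ker f).subtype := by
      ext w
      have h2 := (LinearEquiv.ofInjective i hi).apply_symm_apply
        (LinearMap.codRestrict (LinearMap.range i) (j.comp (LinearMap.ker f).subtype) hran w)
      exact congrArg Subtype.val h2
    have hkinj : Function.Injective k := by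
      have h : Function.Injective (i.comp k) := by
        rw [hik]
        exact hj.comp (Submodule.injective_subtype _)
      exact Function.Injective.of_comp h
    have := hZ
    have hsurj : Function.Surjective (p.comp (LinearMap.ker f).subtype) :=
      (LinearMap.surjective_or_eq_zero _).resolve_right hc
    refine ⟨⟨LinearMap.ker f, W.g.ofInj (LinearMap.ker f).subtype
      (Submodule.injective_subtype _) hmem⟩, k, p.comp (LinearMap.ker f).subtype, x - a, 0 + y,
      hkinj, hsurj, ?_, hsub.comp hpy, ?_⟩
    · refine HomDeg.of_comp_left hia hi ?_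
      rw [hik, sub_add_cancel]
      have h := hsub.comp hjx
      rwa [zero_add] at h
    · rw [hd]
      ring

end Pool.Agent.KLR
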