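import Pool.Agent.Work.MP_e487d8_al.Mo.Hd.Defs

/-! MP_e487d8_al, block HD: ONER, the square of the R-matrix `X ∘ L(j)_z → L(j)_z ∘ X`. -/

set_option autoImplicit false
set_option linter.unusedSectionVars false

namespace Pool.Agent.KLR

variable {K I : Type} [Field K] [Fintype I] [DecidableEq I] (D : Datum K I)

namespace XHONER

variable {D}

section vec

variable {P : Type} [AddCommGroup P] [Module K P] [Module (KLRAlg D) P]
  [IsScalarTower K (KLRAlg D) P]

/-- `QQ k l` on vectors which are killed by the dot of the strand `k` -/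
theorem QQ_vec' (Z : P →ₗ[KLRAlg D] P) (k l : ℕ) (i j : I) :
    ∃ (c : K) (N : ℕ), c ≠ 0 ∧ ∀ v : P, Col D k i v → Col D l j v → D.x k • v = 0 →
      D.x l • v = Z v → D.QQ k l • v = c • (Z ^ N) v := by
  by_cases hij : i = j
  · subst hij
    refine ⟨1, 0, one_ne_zero, fun v hi hj _ _ => ?_⟩
    rw [QQ_eq hi hj, pow_zero, one_smul]
    rfl
  · refine ⟨D.c i j * (-1) ^ D.q i j, D.q i j,
      mul_ne_zero (D.c_ne i j hij) (pow_ne_zero _ (neg_ne_zero.2 one_ne_zero)),
      fun v hi hj hx hl => ?_⟩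
    rw [QQ_ne hi hj hij, smul_assoc, mul_smul]
    congr 1
    have h : ∀ s : ℕ, (D.x k - D.x l) ^ s • v = ((-1 : K) ^ s) • (Z ^ s) v := by
      intro s
      induction s with
      | zero => rw [pow_zero, pow_zero, pow_zero, one_smul, one_smul]; rfl
      | succ s ih =>
        have h1 : D.x k • (Z ^ s) v = 0 := by rw [pow_apply_smul, hx, map_zero]
        have h2 : D.x l • (Z ^ s) v = (Z ^ s) (Z v) := by rw [pow_apply_smul, hl]
        rw [pow_succ', mul_smul, ih, smul_comm, sub_smul, h1, h2, zero_sub, smul_neg, pow_succ,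
          mul_smul, ← smul_neg, pow_succ, neg_smul, one_smul]
        rfl
    exact h _

theorem QP1_vec' (Z : P →ₗ[KLRAlg D] P) (l : ℕ) (j : I) (ν : List I) :
    ∃ (c : K) (N : ℕ), c ≠ 0 ∧ ∀ v : P, Col D l j v → D.x l • v = Z v → D.eW ν • v = v →
      (∀ k < ν.length, D.x k • v = 0) → D.QP1 l ν.length • v = c • (Z ^ N) v := by
  induction ν using List.reverseRecOn with
  | nil =>
    refine ⟨1, 0, one_ne_zero, fun v _ _ _ _ => ?_⟩
    rw [List.length_nil, Datum.QP1, pow_zero, one_smul, one_smul]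
    rfl
  | append_singleton ν i ih =>
    obtain ⟨c, N, hc, h3⟩ := ih
    obtain ⟨c', N', hc', h4⟩ := QQ_vec' Z ν.length l i j
    refine ⟨c * c', N + N', mul_ne_zero hc hc', fun v hj hl hν hx => ?_⟩
    rw [D.eW_snoc] at hν
    have h1 : Col D ν.length i v := by
      rw [Col]
      conv_lhs => rw [← hν]
      rw [← mul_smul, ← mul_assoc, D.e_eW, mul_assoc, D.e_idem]
      exact hν
    have h2 : D.eW ν • v = v := by
      conv_lhs => rw [← hν]
      rw [← mul_smul, ← mul_assoc, D.eW_idem]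
      exact hν
    have hlen : (ν ++ [i]).length = ν.length + 1 := by
      rw [List.length_append]; rfl
    rw [hlen] at hx ⊢
    rw [Datum.QP1, mul_smul, h3 v hj hl h2 (fun k hk => hx k (by omega)), smul_comm,
      pow_apply_smul, h4 v h1 hj (hx ν.length (by omega)) hl, ← algebraMap_smul (KLRAlg D) c',
      map_smul, algebraMap_smul, smul_smul, pow_add]
    rfl

end vec

theorem aff_e (j : I) (w : Aff D (Lt D j)) : D.e 0 j • w = w := by
  induction w using Aff.ind with
  | h0 => rw [smul_zero]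
  | hs d u => rw [Aff.e_sg, Lt.e_smul]
  | ha v w hv hw => rw [smul_add, hv, hw]

theorem aff_x (j : I) (w : Aff D (Lt D j)) : D.x 0 • w = Aff.Z D (Lt D j) w := by
  induction w using Aff.ind with
  | h0 => rw [smul_zero, map_zero]
  | hs d u =>
    rw [Aff.x_sg, Lt.x_smul, map_zero, zero_add, (Lt.isStrand D j).one 0 Nat.zero_lt_one,
      Aff.Z_sg]
  | ha v w hv hw => rw [smul_add, map_add, hv, hw]

end XHONER

open XHONER in
theorem Mo.I_ONER (hb : S_basis D) : Mo.StOneR D := by
  have _ := hb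
  intro X j
  obtain ⟨ν, hν⟩ := X.exists_ch_ne
  have hlen : ν.length = X.n := X.ch_length hν
  obtain ⟨u₀, hu₀⟩ := FdMod.exists_eig X.smp.toFdMod hν
  have hA : IsStrand D 1 (Aff D (Lt D j)) := Aff.isStrand (Lt.isStrand D j)
  let Z1 : Conv D X.n X.M (Aff D (Lt D j)) →ₗ[KLRAlg D] Conv D X.n X.M (Aff D (Lt D j)) :=
    Conv.map (rfl : X.n = X.n) (LinearMap.id : X.M →ₗ[KLRAlg D] X.M) (Aff.Z D (Lt D j))
  obtain ⟨c, N, hc, hQ⟩ := QP1_vec' (D := D) Z1 X.n j ν
  refine ⟨c, N, hc, ?_⟩
  let F : Conv D X.n X.M (Aff D (Lt D j)) →ₗ[KLRAlg D] Conv D X.n X.M (Aff D (Lt D j)) :=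
    (Conv.Rm hA X.smp.strand) ∘ₗ (Conv.Rm X.smp.strand hA)
  let G : Conv D X.n X.M (Aff D (Lt D j)) →ₗ[KLRAlg D] Conv D X.n X.M (Aff D (Lt D j)) :=
    c • (Z1 ^ N)
  -- the vectors on which `F` and `G` agree
  let S : Submodule (KLRAlg D) X.M :=
    { carrier := {u | ∀ w, F (Conv.mk D X.n X.M (Aff D (Lt D j)) u w) =
        G (Conv.mk D X.n X.M (Aff D (Lt D j)) u w)}
      add_mem' := by
        intro u u' hu hu' w
        rw [map_add (Conv.mk D X.n X.M (Aff D (Lt D j))), LinearMap.add_apply, map_add, map_add,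
          hu w, hu' w]
      zero_mem' := by
        intro w
        rw [map_zero (Conv.mk D X.n X.M (Aff D (Lt D j))), LinearMap.zero_apply, map_zero,
          map_zero]
      smul_mem' := by
        intro a u hu w
        rw [← Conv.tr_smul_mk, map_smul, map_smul, hu w] }
  have h0 : u₀ ∈ S := by
    intro w
    have h1 : F (Conv.mk D X.n X.M (Aff D (Lt D j)) u₀ w) =
        D.QP X.n X.n 1 • Conv.mk D X.n X.M (Aff D (Lt D j)) u₀ w :=
      Conv.Rm_Rm_mk X.smp.strand hA u₀ w
    have h2 : D.QP X.n X.n 1 = D.QP1 X.n ν.length := by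
      rw [Datum.QP, Datum.QP, mul_one, hlen]
    rw [h1, h2]
    refine hQ _ ?_ ?_ ?_ ?_
    · rw [Col]
      have h3 := Conv.shn_smul_mk (D := D) (m := X.n) (D.e 0 j) u₀ w
      rwa [D.shn_e, add_zero, aff_e] at h3
    · have h3 := Conv.shn_smul_mk (D := D) (m := X.n) (D.x 0) u₀ w
      rw [D.shn_x, add_zero, aff_x] at h3
      rw [h3]
      change _ = Conv.map _ _ _ _
      rw [Conv.map_mk, LinearMap.id_apply]
    · have h3 := Conv.tr_smul_mk (D := D) (m := X.n) (D.eW ν) u₀ w
      rwa [D.tr_eW ν hlen.le, hu₀.word] at h3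
    · intro k hk
      have h3 := Conv.tr_smul_mk (D := D) (m := X.n) (D.x k) u₀ w
      rw [D.tr_x, if_pos (by omega), hu₀.dot k, map_zero, LinearMap.zero_apply] at h3
      exact h3
  have hS : S = ⊤ := by
    have := X.smp.simple
    refine (eq_bot_or_eq_top S).resolve_left fun h => hu₀.ne ?_
    rw [h] at h0
    exact (Submodule.mem_bot _).1 h0
  have hFG : F = G := Conv.hom_ext fun u w => by
    have h3 : u ∈ S := by rw [hS]; exact Submodule.mem_top
    exact h3 w
  intro y
  exact LinearMap.congr_fun hFG y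

end Pool.Agent.KLR
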