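import Pool.Agent.Work.MP_e487d8_al.Mo.Hd.Defs
import Pool.Agent.Work.MP_e487d8_al.Grad.Able

/-! MP_e487d8_al, block HD, item PI: every simple module is a quotient of an iterated product of
modules `L(j)`, which has a deformation almost commuting with all simple modules. -/

set_option autoImplicit false

namespace Pool.Agent.KLR

variable {K I : Type} [Field K] [Fintype I] [DecidableEq I]

namespace XHPI

section

variable {D : Datum K I} {M X : Type} [AddCommGroup M] [Module K M] [Module (KLRAlg D) M]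
  [IsScalarTower K (KLRAlg D) M] [AddCommGroup X] [Module K X] [Module (KLRAlg D) X]
  [IsScalarTower K (KLRAlg D) X]

/-- a nonzero map from the trivial module -/
theorem exists_un (hM : IsStrand D 0 M) [Nontrivial M] : ∃ f : Un D →ₗ[KLRAlg D] M, f ≠ 0 := by
  obtain ⟨v, hv⟩ := exists_ne (0 : M)
  refine ⟨ofGens ((LinearMap.toSpanSingleton K M v).comp (Un.of D).symm.toLinearMap)
    (fun k i u => ?_) (fun k u => ?_) (fun k u => ?_), fun h => hv ?_⟩
  · rw [Un.e_smul, map_zero, hM.zero k (Nat.zero_le _)]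
  · rw [Un.x_smul, map_zero, hM.x_smul_zero (Nat.zero_le _)]
  · rw [Un.t_smul, map_zero, hM.t_smul_zero (Nat.zero_le _)]
  · have h1 := LinearMap.congr_fun h (Un.of D 1)
    rw [ofGens_apply, LinearMap.comp_apply, LinearEquiv.coe_coe, LinearEquiv.symm_apply_apply,
      LinearMap.toSpanSingleton_apply, one_smul, LinearMap.zero_apply] at h1
    exact h1

/-- a nonzero map to a simple module may be replaced by a homogeneous surjective map -/
theorem exists_hom_surj [IsSimpleModule (KLRAlg D) M] (gX : Grd D X) (gM : Grd D M)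
    {f : X →ₗ[KLRAlg D] M} (hf : f ≠ 0) : ∃ (t : ℤ) (f' : X →ₗ[KLRAlg D] M),
      Function.Surjective f' ∧ HomDeg gX gM t f' := by
  obtain ⟨t, f', h1, h2⟩ := exists_homDeg gX gM hf
  exact ⟨t, f', LinearMap.surjective_of_ne_zero h1, h2⟩

/-- the products `L(i) ∘ (L(i) ∘ .. ∘ X)` -/
theorem step (hb : S_basis D) (hR : Mo.StRec D) {i : I} {n : ℕ} (hX : FdMod D n X)
    (h0 : ∀ x : X, IsKr D i 1 x → x = 0) (gX : Grd D X) (P₀ : GM D) (hfd : FdMod D P₀.n P₀.M)
    (hn : P₀.n = n) (hlat : HasLat 2 P₀) (f : P₀.M →ₗ[KLRAlg D] X) (hf : Function.Surjective f)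
    (t : ℤ) (ht : HomDeg P₀.g gX t f) (a : ℕ) :
    ∃ (P : Type) (_ : AddCommGroup P) (_ : Module K P) (_ : Module (KLRAlg D) P)
      (_ : IsScalarTower K (KLRAlg D) P) (j : X →ₗ[K] P) (gP : Grd D P) (P₁ : GM D)
      (f₁ : P₁.M →ₗ[KLRAlg D] P), IsInd D i a n X P j ∧ FdMod D P₁.n P₁.M ∧ P₁.n = a + n ∧
        HasLat 2 P₁ ∧ Function.Surjective f₁ ∧ HomDeg P₁.g gP t f₁ := by
  induction a with
  | zero =>
    exact ⟨X, _, _, _, inferInstance, LinearMap.id, gX, P₀, f, IsInd.base hX h0, hfd,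
      by omega, hlat, hf, ht⟩
  | succ a ih =>
    obtain ⟨P, i1, i2, i3, i4, j, gP, P₁, f₁, hj, h1, h2, h3, h4, h5⟩ := ih
    refine ⟨Conv D 1 (Lt D i) P, inferInstance, inferInstance, inferInstance, inferInstance,
      (lk D i P).comp j, Grd.conv 1 (Lt.grd D i) gP, (GM.lt D i).conv P₁,
      Conv.map (rfl : 1 = 1) LinearMap.id f₁, ?_, ?_, ?_, ?_, ?_, ?_⟩
    · have := hj.step hb
      rwa [Nat.add_comm 1 a] at this
    · exact Conv.fdMod hb (Lt.smp D i).toFdMod h1
    · change 1 + P₁.n = a + 1 + n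
      omega
    · exact hR 2 1 P₁ i one_pos (by simp [Datum.xdeg]) h3
    · exact Conv.map_surjective rfl _ _ (fun v => ⟨v, rfl⟩) h4
    · have := HomDeg.map (rfl : 1 = 1) (HomDeg.id (gM := Lt.grd D i)) h5
      rwa [zero_add] at this

end

end XHPI

variable (D : Datum K I)

theorem Mo.I_PI (hb : S_basis D) (hB : Mo.StBase D) (hR : Mo.StRec D) : Mo.StPi D := by
  have key : ∀ (n : ℕ) (M : Type) [AddCommGroup M] [Module K M] [Module (KLRAlg D) M]
      [IsScalarTower K (KLRAlg D) M] (_ : Smp D n M) (gM : Grd D M),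
      ∃ (P₀ : GM D) (f : P₀.M →ₗ[KLRAlg D] M) (t : ℤ), FdMod D P₀.n P₀.M ∧ P₀.n = n ∧
        HasLat 2 P₀ ∧ Function.Surjective f ∧ HomDeg P₀.g gM t f := by
    intro n
    induction n using Nat.strong_induction_on with
    | _ n ih =>
      intro M _ _ _ _ hM gM
      have := hM.simple
      have hne : Nontrivial M := IsSimpleModule.nontrivial (KLRAlg D) M
      rcases Nat.eq_zero_or_pos n with hn | hn
      · subst hn
        obtain ⟨f, hf⟩ := XHPI.exists_un hM.strand
        obtain ⟨t, f', h1, h2⟩ := XHPI.exists_hom_surj (GM.un D).g gM hf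
        exact ⟨GM.un D, f', t, (Un.smp D).toFdMod, rfl, hB 2, h1, h2⟩
      · obtain ⟨m, rfl⟩ : ∃ m, n = m + 1 := ⟨n - 1, by omega⟩
        obtain ⟨i, hi⟩ := exists_eps_pos hM.strand
        have hle := eps_le (i := i) hM.strand
        have hK := Kr.smp hb hM i
        obtain ⟨gX⟩ := gradable hb _ _ hK
        obtain ⟨P₀, f, t, a1, a2, a3, a4, a5⟩ := ih (m + 1 - eps D i M) (by omega) _ hK gX
        obtain ⟨P, i1, i2, i3, i4, j, gP, P₁, f₁, hj, b1, b2, b3, b4, b5⟩ :=
          XHPI.step hb hR hK.toFdMod (Kr.noKr hM.strand le_rfl) gX P₀ a1 a2 a3 f a4 t a5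
            (eps D i M)
        obtain ⟨q, hq, -⟩ := hj.exists_surj (Kr.isGen hM i)
        have hne : q.comp f₁ ≠ 0 := by
          intro h
          obtain ⟨v, hv⟩ := exists_ne (0 : M)
          obtain ⟨w, rfl⟩ := hq v
          obtain ⟨w, rfl⟩ := b4 w
          exact hv (LinearMap.congr_fun h w)
        obtain ⟨t', f', h1, h2⟩ := XHPI.exists_hom_surj P₁.g gM hne
        exact ⟨P₁, f', t', b1, by omega, b3, h1, h2⟩
  intro b gb
  exact key b.n b.M b.smp gb

end Pool.Agent.KLR
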