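import Pool.Agent.Work.MP_e487d8_al.Mo.Hd.Defs

/-! MP_e487d8_al, block HD, REC: the recursion step for lattices. If `P` with the parameter `u` is a
deformation of `P₀` then the quotient of `L(j)_z ∘ P` by `z - u^k` is a deformation of
`L(j) ∘ P₀`. -/

set_option autoImplicit false
set_option linter.unusedSectionVars false

namespace Pool.Agent.KLR

variable {K I : Type} [Field K] [Fintype I] [DecidableEq I]

namespace XHREC

variable {D : Datum K I}

section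

variable {M N : Type} [AddCommGroup M] [Module K M] [Module (KLRAlg D) M]
  [IsScalarTower K (KLRAlg D) M] [AddCommGroup N] [Module K N] [Module (KLRAlg D) N]
  [IsScalarTower K (KLRAlg D) N]

theorem homDeg_sub {gM : Grd D M} {gN : Grd D N} {s : ℤ} {f f' : M →ₗ[KLRAlg D] N}
    (hf : HomDeg gM gN s f) (hf' : HomDeg gM gN s f') : HomDeg gM gN s (f - f') :=
  HomDeg.of_hm fun _ _ hu => (hf.hm hu).sub (hf'.hm hu)

theorem homDeg_congr {gM : Grd D M} {gN : Grd D N} {s s' : ℤ} {f : M →ₗ[KLRAlg D] N}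
    (hf : HomDeg gM gN s f) (h : s = s') : HomDeg gM gN s' f := by
  rw [← h]; exact hf

/-- commuting endomorphisms -/
theorem pow_comm_apply {u v : M →ₗ[KLRAlg D] M} (h : ∀ a, u (v a) = v (u a)) (k : ℕ) (a : M) :
    (u ^ k) (v a) = v ((u ^ k) a) := by
  induction k generalizing a with
  | zero => rfl
  | succ k ih =>
    rw [pow_succ, Module.End.mul_apply, Module.End.mul_apply, h, ih]

end

section

variable {A : GM D} {F : A.M →ₗ[KLRAlg D] A.M} {s : ℤ}

theorem ker_pr (hF : HomDeg A.g A.g s F) (a : A.M) (d : ℤ)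
    (h : (LinearMap.range F).mkQ a = 0) : (LinearMap.range F).mkQ (A.g.pr d a) = 0 := by
  rw [Submodule.mkQ_apply, Submodule.Quotient.mk_eq_zero] at h ⊢
  obtain ⟨b, rfl⟩ := h
  refine ⟨A.g.pr (d - s) b, ?_⟩
  rw [← hF.pr (d - s) b, sub_add_cancel]

/-- the quotient of a graded module by the image of a homogeneous endomorphism -/
noncomputable def quo (A : GM D) (F : A.M →ₗ[KLRAlg D] A.M) (s : ℤ) (hF : HomDeg A.g A.g s F) :
    GM D :=
  ⟨⟨A.M ⧸ LinearMap.range F, A.g.ofSurj (LinearMap.range F).mkQ (Submodule.mkQ_surjective _)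
    (fun a d => ker_pr hF a d)⟩, A.n,
    A.strand.of_surjective (LinearMap.range F).mkQ (Submodule.mkQ_surjective _)⟩

theorem quo_hom (hF : HomDeg A.g A.g s F) : HomDeg A.g (quo A F s hF).g 0
    ((LinearMap.range F).mkQ : A.M →ₗ[KLRAlg D] (quo A F s hF).M) :=
  Grd.ofSurj_hom A.g (LinearMap.range F).mkQ (Submodule.mkQ_surjective _)
    (fun a d => ker_pr hF a d)

end

end XHREC

theorem Mo.I_REC (D : Datum K I) (hb : S_basis D) (hQ : Mo.StRedq (KLRAlg D)) (hB : Mo.StBig D)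
    (hD : Mo.StDesc D) : Mo.StRec D := by
  intro e k P₀ j hk hke hL
  obtain ⟨P, u, p, hn, hred, hu, hp, hX⟩ := hL
  -- the big module
  let A : GM D := (GM.lz D j).conv P
  let u' : A.M →ₗ[KLRAlg D] A.M := Conv.map (rfl : 1 = 1)
    (LinearMap.id : Aff D (Lt D j) →ₗ[KLRAlg D] Aff D (Lt D j)) u
  let z' : A.M →ₗ[KLRAlg D] A.M := Conv.map (rfl : 1 = 1) (Aff.Z D (Lt D j))
    (LinearMap.id : P.M →ₗ[KLRAlg D] P.M)
  have hu' : HomDeg A.g A.g e u' := by
    have h := HomDeg.map (rfl : 1 = 1)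
      (HomDeg.id (gM := Aff.grd (Lt.grd D j) (Lt.e_smul D j))) hu
    exact XHREC.homDeg_congr h (zero_add e)
  have hz' : HomDeg A.g A.g (D.xdeg j) z' := by
    have h := HomDeg.map (rfl : 1 = 1) (Aff.homDeg_Z (Lt.e_smul D j) (Lt.grd D j))
      (HomDeg.id (gM := P.g))
    exact XHREC.homDeg_congr h (add_zero _)
  have huk : HomDeg A.g A.g (D.xdeg j) (u' ^ k) := XHREC.homDeg_congr (hu'.pow k) hke
  have hF : HomDeg A.g A.g (D.xdeg j) (z' - u' ^ k) := XHREC.homDeg_sub hz' huk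
  have hzu : ∀ a, z' (u' a) = u' (z' a) := by
    intro a
    change Conv.map _ _ _ (Conv.map _ _ _ a) = Conv.map _ _ _ (Conv.map _ _ _ a)
    rw [Conv.map_map, Conv.map_map]
    rfl
  have hFu : ∀ a, (z' - u' ^ k) (u' a) = u' ((z' - u' ^ k) a) := by
    intro a
    rw [LinearMap.sub_apply, LinearMap.sub_apply, map_sub, hzu,
      XHREC.pow_comm_apply (fun _ => rfl)]
  -- the quotient
  let B : GM D := XHREC.quo A (z' - u' ^ k) (D.xdeg j) hF
  let q : A.M →ₗ[KLRAlg D] B.M := (LinearMap.range (z' - u' ^ k)).mkQ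
  have hq : Function.Surjective q := Submodule.mkQ_surjective _
  have hqk : LinearMap.ker q = LinearMap.range (z' - u' ^ k) := Submodule.ker_mkQ _
  have hqd : HomDeg A.g B.g 0 q := XHREC.quo_hom hF
  let uB : B.M →ₗ[KLRAlg D] B.M := Submodule.mapQ _ _ u' (by
    rintro _ ⟨b, rfl⟩
    exact ⟨u' b, hFu b⟩)
  have huB : ∀ a, uB (q a) = q (u' a) := fun a => rfl
  -- the reductions
  let A₁ : GM D := (GM.lz D j).conv P₀
  let A₂ : GM D := (GM.lt D j).conv P₀
  let p' : A.M →ₗ[KLRAlg D] A₁.M := Conv.map (rfl : 1 = 1)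
    (LinearMap.id : Aff D (Lt D j) →ₗ[KLRAlg D] Aff D (Lt D j)) p
  let F₁ : A₁.M →ₗ[KLRAlg D] A₁.M :=
    Conv.map (rfl : 1 = 1) (Aff.Z D (Lt D j)) (LinearMap.id : P₀.M →ₗ[KLRAlg D] P₀.M)
  let p₁ : A₁.M →ₗ[KLRAlg D] A₂.M :=
    Conv.map (rfl : 1 = 1) (Aff.P D (Lt D j)) (LinearMap.id : P₀.M →ₗ[KLRAlg D] P₀.M)
  have hr1 : Red u' p' := IsAff.redR (m := P.n) hb ⟨P.strand, hred⟩
    (Aff.isStrand (Lt.isStrand D j))
  have hr2 : Red F₁ p₁ := (Aff.isAff (Lt.isStrand D j)).redL hb P₀.strand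
  have hpz : ∀ a, p' (z' a) = F₁ (p' a) := by
    intro a
    change Conv.map _ _ _ (Conv.map _ _ _ a) = Conv.map _ _ _ (Conv.map _ _ _ a)
    rw [Conv.map_map, Conv.map_map]
    rfl
  have hpF : ∀ a, p' ((z' - u' ^ k) a) = F₁ (p' a) := by
    intro a
    obtain ⟨k', rfl⟩ : ∃ k', k = k' + 1 := ⟨k - 1, by omega⟩
    rw [LinearMap.sub_apply, map_sub, hpz, pow_succ', Module.End.mul_apply, hr1.apply_eq,
      sub_zero]
  let pB : B.M →ₗ[KLRAlg D] A₂.M := Submodule.liftQ _ (p₁ ∘ₗ p') (by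
    rintro _ ⟨b, rfl⟩
    rw [LinearMap.mem_ker, LinearMap.comp_apply, hpF, hr2.apply_eq])
  have hpB : ∀ a, pB (q a) = p₁ (p' a) := fun a => rfl
  have hrB : Red uB pB := hQ A.M _ _ B.M (z' - u' ^ k) u' p' F₁ p₁ q uB pB hr1 hr2 hFu hpF hq hqk
    huB hpB
  change HasLat e A₂
  refine ⟨B, uB, pB, ?_, hrB, ?_, ?_, ?_⟩
  · change 1 + P.n = 1 + P₀.n
    rw [hn]
  · refine HomDeg.of_comp_right hqd hq ?_
    have h1 : uB.comp q = q.comp u' := rfl
    rw [h1, add_comm]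
    exact hu'.comp hqd
  · change HomDeg B.g A₂.g 0 pB
    refine HomDeg.of_comp_right hqd hq ?_
    have h1 : pB.comp q = p₁.comp p' := rfl
    rw [h1]
    have h2 : HomDeg A.g A₁.g (0 + 0) p' :=
      HomDeg.map (rfl : 1 = 1) (HomDeg.id (gM := Aff.grd (Lt.grd D j) (Lt.e_smul D j))) hp
    have h3 : HomDeg A₁.g A₂.g (0 + 0) p₁ :=
      HomDeg.map (rfl : 1 = 1) (Aff.homDeg_P (Lt.e_smul D j) (Lt.grd D j)) (HomDeg.id (gM := P₀.g))
    exact XHREC.homDeg_congr (h2.comp h3) (by norm_num)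
  · intro X gX
    exact hD A B u' z' q uB k (X.gm gX) rfl hq hqk huB hqd (hB P u X gX j (hX X gX))

end Pool.Agent.KLR
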