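import Pool.Agent.Work.MP_e487d8_al.Mo.Hd.Defs

/-! MP_e487d8_al, block HD (lattices): REDQ, the reduction of a quotient. -/

set_option autoImplicit false

namespace Pool.Agent.KLR

namespace XHREDQ

theorem ker_iff {R A B C : Type} [Ring R] [AddCommGroup A] [Module R A] [AddCommGroup B]
    [Module R B] [AddCommGroup C] [Module R C] {q : A →ₗ[R] B} {F : C →ₗ[R] A}
    (h : LinearMap.ker q = LinearMap.range F) (a : A) : q a = 0 ↔ ∃ b, F b = a := by
  rw [← LinearMap.mem_ker, h, LinearMap.mem_range]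

end XHREDQ

open XHREDQ in
theorem Mo.I_REDQ (R : Type) [Ring R] : Mo.StRedq R := by
  intro A A₁ A₂ B _ _ _ _ _ _ _ _ F u p F₁ p₁ q uB pB hu hF huF hpF hq hker huB hpB
  have hqk := ker_iff hker
  have hpk := ker_iff hu.ker
  have hp1k := ker_iff hF.ker
  refine ⟨?_, ?_, ?_⟩
  · rw [injective_iff_map_eq_zero]
    intro y hy
    obtain ⟨a, rfl⟩ := hq y
    rw [huB] at hy
    obtain ⟨b, hb⟩ := (hqk _).1 hy
    have h1 : F₁ (p b) = 0 := by
      rw [← hpF, hb]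
      exact (hpk _).2 ⟨a, rfl⟩
    have h2 : p b = 0 := (injective_iff_map_eq_zero F₁).1 hF.inj _ h1
    obtain ⟨b', rfl⟩ := (hpk _).1 h2
    rw [huF] at hb
    exact (hqk _).2 ⟨b', hu.inj hb⟩
  · intro z
    obtain ⟨a₁, rfl⟩ := hF.surj z
    obtain ⟨a, rfl⟩ := hu.surj a₁
    exact ⟨q a, hpB a⟩
  · ext y
    obtain ⟨a, rfl⟩ := hq y
    rw [LinearMap.mem_ker, LinearMap.mem_range]
    constructor
    · intro h
      rw [hpB] at h
      obtain ⟨a₁, h1⟩ := (hp1k _).1 h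
      obtain ⟨a', rfl⟩ := hu.surj a₁
      rw [← hpF] at h1
      have h2 : p (a - F a') = 0 := by rw [map_sub, h1, sub_self]
      obtain ⟨a'', h3⟩ := (hpk _).1 h2
      refine ⟨q a'', ?_⟩
      rw [huB, h3, map_sub, (hqk (F a')).2 ⟨a', rfl⟩, sub_zero]
    · rintro ⟨y, hy⟩
      obtain ⟨b, rfl⟩ := hq y
      rw [← hy, huB, hpB, (hpk (u b)).2 ⟨b, rfl⟩, map_zero]

end Pool.Agent.KLR
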