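import Pool.Agent.Work.MP_e487d8_al.Mo.Hd.P_BASE
import Pool.Agent.Work.MP_e487d8_al.Mo.Hd.P_BIG
import Pool.Agent.Work.MP_e487d8_al.Mo.Hd.P_DESC
import Pool.Agent.Work.MP_e487d8_al.Mo.Hd.P_FILT
import Pool.Agent.Work.MP_e487d8_al.Mo.Hd.P_HD
import Pool.Agent.Work.MP_e487d8_al.Mo.Hd.P_LAT
import Pool.Agent.Work.MP_e487d8_al.Mo.Hd.P_OCCS
import Pool.Agent.Work.MP_e487d8_al.Mo.Hd.P_OCCX
import Pool.Agent.Work.MP_e487d8_al.Mo.Hd.P_ONEL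
import Pool.Agent.Work.MP_e487d8_al.Mo.Hd.P_ONER
import Pool.Agent.Work.MP_e487d8_al.Mo.Hd.P_PI
import Pool.Agent.Work.MP_e487d8_al.Mo.Hd.P_REC
import Pool.Agent.Work.MP_e487d8_al.Mo.Hd.P_REDQ

/-! MP_e487d8_al, block HD: the theorem. -/

set_option autoImplicit false

namespace Pool.Agent.KLR

variable {K I : Type} [Field K] [Fintype I] [DecidableEq I] (D : Datum K I)

/-- HD -/
theorem Mo.hd (hb : S_basis D) : StHd D :=
  I_HD D hb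
    (I_PI D hb (I_BASE D) (I_REC D hb (I_REDQ (KLRAlg D)) (I_BIG D (I_ONER D hb) (I_ONEL D hb))
      (I_DESC hb)))
    (I_LAT D (I_OCCS D) (I_FILT D (I_OCCX D)))

end Pool.Agent.KLR
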