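import Pool.Agent.Work.MP_e487d8_al.Mo.R1.Self
import Pool.Agent.Work.MP_e487d8_al.Grad.Shift

/-! MP_e487d8_al, block HD (lattices): definitions and statements.
`X ∘ b` with one maximal submodule and simple quotient `S`: the degrees of the constituents of
`X ∘ b` compared with the degrees of the constituents of `P₀ ∘ X`, `P₀ = L(j₁) ∘ .. ∘ L(j_h) → b`. -/

set_option autoImplicit false

namespace Pool.Agent.KLR

variable {K I : Type} [Field K] [Fintype I] [DecidableEq I]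

instance (D : Datum K I) (i : I) : IsStrand D 1 (Lt D i) := Lt.isStrand D i

/-- a graded module -/
structure GV (D : Datum K I) : Type 1 where
  M : Type
  [acg : AddCommGroup M]
  [modK : Module K M]
  [modR : Module (KLRAlg D) M]
  [tow : IsScalarTower K (KLRAlg D) M]
  g : Grd D M

attribute [instance] GV.acg GV.modK GV.modR GV.tow

/-- a graded module with `n` strands -/
structure GM (D : Datum K I) : Type 1 extends GV D where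
  n : ℕ
  strand : IsStrand D n M

variable {D : Datum K I}

/-- the convolution product of graded modules -/
noncomputable def GM.conv (A B : GM D) : GM D :=
  ⟨⟨Conv D A.n A.M B.M, Grd.conv A.n A.g B.g⟩, A.n + B.n, Conv.isStrand A.strand B.strand⟩

/-- a simple module with a grading -/
def SMod.gm (X : SMod D) (g : Grd D X.M) : GM D := ⟨⟨X.M, g⟩, X.n, X.smp.strand⟩

/-- the trivial graded module -/
noncomputable def GM.un (D : Datum K I) : GM D :=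
  ⟨⟨Un D, Grd.triv (fun k u => Un.x_smul D k u) (fun k u => Un.t_smul D k u)⟩, 0, Un.isStrand D⟩

/-- the graded module `L(i)` -/
noncomputable def GM.lt (D : Datum K I) (i : I) : GM D := ⟨⟨Lt D i, Lt.grd D i⟩, 1, Lt.isStrand D i⟩

/-- the graded module `L(i)` with the parameter `z` -/
noncomputable def GM.lz (D : Datum K I) (i : I) : GM D :=
  ⟨⟨Aff D (Lt D i), Aff.grd (Lt.grd D i) (Lt.e_smul D i)⟩, 1, Aff.isStrand (Lt.isStrand D i)⟩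

/-- `Z⟨d⟩` is a subquotient of `V`: an element of degree `k` of `Z` comes from an element of degree
`k + d` of `V` -/
def GV.Occ (Z V : GV D) (d : ℤ) : Prop :=
  ∃ (W : GV D) (i : W.M →ₗ[KLRAlg D] V.M) (p : W.M →ₗ[KLRAlg D] Z.M) (a b : ℤ),
    Function.Injective i ∧ Function.Surjective p ∧ HomDeg W.g V.g a i ∧ HomDeg W.g Z.g b p ∧
      d = a - b

namespace Mo

variable (D)

/-- OCCS: subquotients of quotients and of submodules -/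
def StOccS : Prop := ∀ (Z V V' : GV D) (d t : ℤ),
  (∀ p : V.M →ₗ[KLRAlg D] V'.M, Function.Surjective p → HomDeg V.g V'.g t p → Z.Occ V' d →
    Z.Occ V (d - t)) ∧
  (∀ i : V.M →ₗ[KLRAlg D] V'.M, Function.Injective i → HomDeg V.g V'.g t i → Z.Occ V d →
    Z.Occ V' (d + t))

/-- OCCX: simple subquotients and exact sequences -/
def StOccX : Prop := ∀ (Z V₁ V V₂ : GV D) (i : V₁.M →ₗ[KLRAlg D] V.M) (q : V.M →ₗ[KLRAlg D] V₂.M)
  (a b d : ℤ), IsSimpleModule (KLRAlg D) Z.M → Function.Injective i → Function.Surjective q →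
    LinearMap.ker q = LinearMap.range i → HomDeg V₁.g V.g a i → HomDeg V.g V₂.g b q →
    Z.Occ V d → Z.Occ V₁ (d - a) ∨ Z.Occ V₂ (d + b)

/-- FILT: the filtration of `G / u^m G` -/
def StFilt : Prop := ∀ (Z G G₀ G' : GV D) (u : G.M →ₗ[KLRAlg D] G.M) (p : G.M →ₗ[KLRAlg D] G₀.M)
  (q : G.M →ₗ[KLRAlg D] G'.M) (m : ℕ) (e d : ℤ), IsSimpleModule (KLRAlg D) Z.M → Red u p →
    HomDeg G.g G.g e u → HomDeg G.g G₀.g 0 p → Function.Surjective q →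
    LinearMap.ker q = LinearMap.range (u ^ m) → HomDeg G.g G'.g 0 q → Z.Occ G' d →
    ∃ j : ℕ, j < m ∧ Z.Occ G₀ (d - j * e)

/-- LAT: the lattice lemma -/
def StLat : Prop := ∀ (H G H₀ G₀ V S : GV D) (uH : H.M →ₗ[KLRAlg D] H.M)
  (uG : G.M →ₗ[KLRAlg D] G.M) (pH : H.M →ₗ[KLRAlg D] H₀.M) (pG : G.M →ₗ[KLRAlg D] G₀.M)
  (U : H.M →ₗ[KLRAlg D] G.M) (U' : G.M →ₗ[KLRAlg D] H.M) (c c' : K) (N N' : ℕ) (e δ t s : ℤ)
  (π : H₀.M →ₗ[KLRAlg D] V.M) (h : V.M →ₗ[KLRAlg D] S.M),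
  Red uH pH → Red uG pG → HomDeg H.g H.g e uH → HomDeg G.g G.g e uG → HomDeg H.g H₀.g 0 pH →
  HomDeg G.g G₀.g 0 pG → 0 < e → (∀ y, U (uH y) = uG (U y)) → (∀ y, U' (uG y) = uH (U' y)) →
  c ≠ 0 → c' ≠ 0 → (∀ y, U' (U y) = c • (uH ^ N) y) → (∀ y, U (U' y) = c' • (uG ^ N') y) →
  HomDeg H.g G.g δ U → Function.Surjective π → HomDeg H₀.g V.g t π → Function.Surjective h →
  HomDeg V.g S.g (-s) h → IsSimpleModule (KLRAlg D) S.M →
  (∀ W : Submodule (KLRAlg D) V.M, W ≠ ⊤ → W ≤ LinearMap.ker h) →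
  ∃ D' : ℤ, S.Occ G₀ (s + D') ∧ ∀ (Z : GV D) (d : ℤ), IsSimpleModule (KLRAlg D) Z.M →
    Z.Occ V d → ∃ j : ℕ, Z.Occ G₀ (d + D' - j * e)

/-- REDQ: the reduction of a quotient (pure algebra) -/
def StRedq (R : Type) [Ring R] : Prop := ∀ (A A₁ A₂ B : Type) [AddCommGroup A] [Module R A]
  [AddCommGroup A₁] [Module R A₁] [AddCommGroup A₂] [Module R A₂] [AddCommGroup B] [Module R B]
  (F u : A →ₗ[R] A) (p : A →ₗ[R] A₁) (F₁ : A₁ →ₗ[R] A₁) (p₁ : A₁ →ₗ[R] A₂) (q : A →ₗ[R] B)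
  (uB : B →ₗ[R] B) (pB : B →ₗ[R] A₂), Red u p → Red F₁ p₁ → (∀ a, F (u a) = u (F a)) →
  (∀ a, p (F a) = F₁ (p a)) → Function.Surjective q → LinearMap.ker q = LinearMap.range F →
  (∀ a, uB (q a) = q (u a)) → (∀ a, pB (q a) = p₁ (p a)) → Red uB pB

/-- ONER: `X ∘ L(j)_z → L(j)_z ∘ X → X ∘ L(j)_z` is `c z^N` -/
def StOneR : Prop := ∀ (X : SMod D) (j : I), ∃ (c : K) (N : ℕ), c ≠ 0 ∧
  ∀ y : Conv D X.n X.M (Aff D (Lt D j)),
    Conv.Rm (Aff.isStrand (Lt.isStrand D j)) X.smp.strand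
      (Conv.Rm X.smp.strand (Aff.isStrand (Lt.isStrand D j)) y) =
    c • ((Conv.map (rfl : X.n = X.n) (LinearMap.id : X.M →ₗ[KLRAlg D] X.M)
      (Aff.Z D (Lt D j))) ^ N) y

/-- ONEL: `L(j)_z ∘ X → X ∘ L(j)_z → L(j)_z ∘ X` is `c z^N` -/
def StOneL : Prop := ∀ (X : SMod D) (j : I), ∃ (c : K) (N : ℕ), c ≠ 0 ∧
  ∀ y : Conv D 1 (Aff D (Lt D j)) X.M,
    Conv.Rm X.smp.strand (Aff.isStrand (Lt.isStrand D j))
      (Conv.Rm (Aff.isStrand (Lt.isStrand D j)) X.smp.strand y) =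
    c • ((Conv.map (rfl : 1 = 1) (Aff.Z D (Lt D j))
      (LinearMap.id : X.M →ₗ[KLRAlg D] X.M)) ^ N) y

end Mo

/-- the endomorphism `1 ∘ u` of `X ∘ P` -/
noncomputable def cr (X P : GM D) (u : P.M →ₗ[KLRAlg D] P.M) :
    Conv D X.n X.M P.M →ₗ[KLRAlg D] Conv D X.n X.M P.M :=
  Conv.map (rfl : X.n = X.n) (LinearMap.id : X.M →ₗ[KLRAlg D] X.M) u

/-- the endomorphism `u ∘ 1` of `P ∘ X` -/
noncomputable def cl (X P : GM D) (u : P.M →ₗ[KLRAlg D] P.M) :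
    Conv D P.n P.M X.M →ₗ[KLRAlg D] Conv D P.n P.M X.M :=
  Conv.map (rfl : P.n = P.n) u (LinearMap.id : X.M →ₗ[KLRAlg D] X.M)

/-- `P` (with the parameter `u`) almost commutes with `X` -/
def LatX (P : GM D) (u : P.M →ₗ[KLRAlg D] P.M) (X : GM D) : Prop :=
  ∃ (U : Conv D X.n X.M P.M →ₗ[KLRAlg D] Conv D P.n P.M X.M)
    (U' : Conv D P.n P.M X.M →ₗ[KLRAlg D] Conv D X.n X.M P.M) (c c' : K) (N N' : ℕ) (δ δ' : ℤ),
    c ≠ 0 ∧ c' ≠ 0 ∧ (∀ y, U (cr X P u y) = cl X P u (U y)) ∧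
    (∀ y, U' (cl X P u y) = cr X P u (U' y)) ∧
    (∀ y, U' (U y) = c • (cr X P u ^ N) y) ∧ (∀ y, U (U' y) = c' • (cl X P u ^ N') y) ∧
    HomDeg (Grd.conv X.n X.g P.g) (Grd.conv P.n P.g X.g) δ U ∧
    HomDeg (Grd.conv P.n P.g X.g) (Grd.conv X.n X.g P.g) δ' U'

/-- two commuting parameters `u`, `z` -/
def LatX2 (P : GM D) (u z : P.M →ₗ[KLRAlg D] P.M) (X : GM D) : Prop :=
  ∃ (U : Conv D X.n X.M P.M →ₗ[KLRAlg D] Conv D P.n P.M X.M)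
    (U' : Conv D P.n P.M X.M →ₗ[KLRAlg D] Conv D X.n X.M P.M) (c c' : K) (N N' M M' : ℕ)
    (δ δ' : ℤ),
    c ≠ 0 ∧ c' ≠ 0 ∧ (∀ y, U (cr X P u y) = cl X P u (U y)) ∧
    (∀ y, U' (cl X P u y) = cr X P u (U' y)) ∧ (∀ y, U (cr X P z y) = cl X P z (U y)) ∧
    (∀ y, U' (cl X P z y) = cr X P z (U' y)) ∧
    (∀ y, U' (U y) = c • (cr X P u ^ N) ((cr X P z ^ M) y)) ∧
    (∀ y, U (U' y) = c' • (cl X P u ^ N') ((cl X P z ^ M') y)) ∧
    HomDeg (Grd.conv X.n X.g P.g) (Grd.conv P.n P.g X.g) δ U ∧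
    HomDeg (Grd.conv P.n P.g X.g) (Grd.conv X.n X.g P.g) δ' U'

/-- `P₀` has a deformation over `K[u]`, `deg u = e`, which almost commutes with all simple
modules -/
def HasLat (e : ℤ) (P₀ : GM D) : Prop :=
  ∃ (P : GM D) (u : P.M →ₗ[KLRAlg D] P.M) (p : P.M →ₗ[KLRAlg D] P₀.M), P.n = P₀.n ∧ Red u p ∧
    HomDeg P.g P.g e u ∧ HomDeg P.g P₀.g 0 p ∧
    ∀ (X : SMod D) (gX : Grd D X.M), LatX P u (X.gm gX)

namespace Mo

variable (D)

/-- BIG: the maps for `L(j)_z ∘ P` -/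
def StBig : Prop := ∀ (P : GM D) (u : P.M →ₗ[KLRAlg D] P.M) (X : SMod D) (gX : Grd D X.M) (j : I),
  LatX P u (X.gm gX) →
    LatX2 ((GM.lz D j).conv P)
      (Conv.map (rfl : 1 = 1) (LinearMap.id : Aff D (Lt D j) →ₗ[KLRAlg D] Aff D (Lt D j)) u)
      (Conv.map (rfl : 1 = 1) (Aff.Z D (Lt D j)) (LinearMap.id : P.M →ₗ[KLRAlg D] P.M))
      (X.gm gX)

/-- DESC: descent of the maps to the quotient by `z - u^k` -/
def StDesc : Prop := ∀ (A B : GM D) (u z : A.M →ₗ[KLRAlg D] A.M) (q : A.M →ₗ[KLRAlg D] B.M)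
  (uB : B.M →ₗ[KLRAlg D] B.M) (k : ℕ) (X : GM D), A.n = B.n → Function.Surjective q →
  LinearMap.ker q = LinearMap.range (z - u ^ k) → (∀ a, uB (q a) = q (u a)) →
  HomDeg A.g B.g 0 q → LatX2 A u z X → LatX B uB X

/-- REC: the recursion step -/
def StRec : Prop := ∀ (e : ℤ) (k : ℕ) (P₀ : GM D) (j : I), 0 < k → (k : ℤ) * e = D.xdeg j →
  HasLat e P₀ → HasLat e ((GM.lt D j).conv P₀)

/-- BASE: the trivial module -/
def StBase : Prop := ∀ e : ℤ, HasLat e (GM.un D)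

/-- PI: every simple module is a quotient of a module with a deformation -/
def StPi : Prop := ∀ (b : SMod D) (gb : Grd D b.M), ∃ (P₀ : GM D) (f : P₀.M →ₗ[KLRAlg D] b.M)
  (t : ℤ), FdMod D P₀.n P₀.M ∧ P₀.n = b.n ∧ HasLat 2 P₀ ∧ Function.Surjective f ∧
    HomDeg P₀.g gb t f

/-- HD -/
def StHd : Prop := ∀ (b : SMod D) (gb : Grd D b.M), ∃ P₀ : GM D, FdMod D P₀.n P₀.M ∧
  P₀.n = b.n ∧ ∀ (X S : SMod D) (gX : Grd D X.M) (gS : Grd D S.M) (s : ℤ),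
  (∀ h : Conv D X.n X.M b.M →ₗ[KLRAlg D] S.M, Function.Surjective h →
    HomDeg (Grd.conv X.n gX gb) gS (-s) h →
    (∀ W : Submodule (KLRAlg D) (Conv D X.n X.M b.M), W ≠ ⊤ → W ≤ LinearMap.ker h) →
    ∃ D' : ℤ, (S.gm gS).Occ (P₀.conv (X.gm gX)).toGV (s + D') ∧
      ∀ (Z : SMod D) (gZ : Grd D Z.M) (d : ℤ), (Z.gm gZ).Occ ((X.gm gX).conv (b.gm gb)).toGV d →
        ∃ j : ℕ, (Z.gm gZ).Occ (P₀.conv (X.gm gX)).toGV (d + D' - j)) ∧
  (∀ h : Conv D b.n b.M X.M →ₗ[KLRAlg D] S.M, Function.Surjective h →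
    HomDeg (Grd.conv b.n gb gX) gS (-s) h →
    (∀ W : Submodule (KLRAlg D) (Conv D b.n b.M X.M), W ≠ ⊤ → W ≤ LinearMap.ker h) →
    ∃ D' : ℤ, (S.gm gS).Occ ((X.gm gX).conv P₀).toGV (s + D') ∧
      ∀ (Z : SMod D) (gZ : Grd D Z.M) (d : ℤ), (Z.gm gZ).Occ ((b.gm gb).conv (X.gm gX)).toGV d →
        ∃ j : ℕ, (Z.gm gZ).Occ ((X.gm gX).conv P₀).toGV (d + D' - j))

end Mo

end Pool.Agent.KLR
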