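import Pool.Agent.Work.MP_e487d8_al.Mo.Hd.Defs

/-! MP_e487d8_al, block HD, item BASE: the trivial module has a deformation over `K[u]`. -/

set_option autoImplicit false

namespace Pool.Agent.KLR

variable {K I : Type} [Field K] [Fintype I] [DecidableEq I]

namespace XHBASE

/-- the module `K[u]` (no strand) -/
@[nolint unusedArguments]
def PK (_D : Datum K I) : Type := ℕ →₀ K

section

variable (D : Datum K I)

noncomputable instance : AddCommGroup (PK D) := inferInstanceAs (AddCommGroup (ℕ →₀ K))
noncomputable instance : Module K (PK D) := inferInstanceAs (Module K (ℕ →₀ K))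
noncomputable instance : Module (KLRAlg D) (PK D) :=
  Module.compHom (ℕ →₀ K) (unHom D : KLRAlg D →+* K)

theorem smul_eq (a : KLRAlg D) (w : PK D) : a • w = unHom D a • w := rfl

instance : IsScalarTower K (KLRAlg D) (PK D) where
  smul_assoc r a w := by
    rw [smul_eq, smul_eq, map_smul, smul_eq_mul, mul_smul]

theorem e_smul (k : ℕ) (j : I) (w : PK D) : D.e k j • w = 0 := by
  rw [smul_eq, Un.unHom_e, zero_smul]

theorem x_smul (k : ℕ) (w : PK D) : D.x k • w = 0 := by
  rw [smul_eq, Un.unHom_x, zero_smul]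

theorem t_smul (k : ℕ) (w : PK D) : D.t k • w = 0 := by
  rw [smul_eq, Un.unHom_t, zero_smul]

theorem isStrand : IsStrand D 0 (PK D) where
  one k hk u := by omega
  zero k hk j u := e_smul D k j u

/-- the element `c u^k` -/
noncomputable def sg (k : ℕ) : K →ₗ[K] PK D := (Finsupp.lsingle k : K →ₗ[K] (ℕ →₀ K))

/-- the coefficients -/
noncomputable def cf (k : ℕ) : PK D →ₗ[K] K := (Finsupp.lapply k : (ℕ →₀ K) →ₗ[K] K)

end

variable {D : Datum K I} {N : Type} [AddCommGroup N] [Module K N]

/-- linear maps out of `K[u]` -/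
noncomputable def liftP (g : ℕ → K →ₗ[K] N) : PK D →ₗ[K] N :=
  (Finsupp.lsum K g : (ℕ →₀ K) →ₗ[K] N)

omit [Fintype I] [DecidableEq I] in
theorem liftP_sg (g : ℕ → K →ₗ[K] N) (k : ℕ) (c : K) : liftP (D := D) g (sg D k c) = g k c := by
  change (Finsupp.lsum K g : (ℕ →₀ K) →ₗ[K] N) (Finsupp.single k c) = _
  simp

omit [Fintype I] [DecidableEq I] in
theorem cf_sg (k k' : ℕ) (c : K) : cf D k (sg D k' c) = if k' = k then c else 0 := by
  change (Finsupp.single k' c : ℕ →₀ K) k = _
  rw [Finsupp.single_apply]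

omit [Fintype I] [DecidableEq I] in
theorem ext_cf {y z : PK D} (h : ∀ k, cf D k y = cf D k z) : y = z := Finsupp.ext h

omit [Fintype I] [DecidableEq I] in
theorem ind {P : PK D → Prop} (w : PK D) (h0 : P 0) (hs : ∀ k c, P (sg D k c))
    (ha : ∀ v w, P v → P w → P (v + w)) : P w :=
  Finsupp.induction_linear w h0 ha hs

/-- the grading, as a linear map -/
noncomputable def rhoK (D : Datum K I) (e : ℤ) : PK D →ₗ[K] Lau D (PK D) :=
  liftP fun k => (Lau.sg D (e * k)).comp (sg D k)

omit [Fintype I] [DecidableEq I] in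
theorem rhoK_sg (e : ℤ) (k : ℕ) (c : K) :
    rhoK D e (sg D k c) = Lau.sg D (e * k) (sg D k c) := by
  unfold rhoK
  rw [liftP_sg]
  rfl

/-- the grading, as a homomorphism -/
noncomputable def rhoR (D : Datum K I) (e : ℤ) : PK D →ₗ[KLRAlg D] Lau D (PK D) :=
  ofGens (rhoK D e)
    (fun l i w => by
      induction w using ind with
      | h0 => simp
      | ha v w hv hw => rw [smul_add, map_add, map_add, smul_add, hv, hw]
      | hs k c => rw [e_smul, map_zero, rhoK_sg, Lau.e_sg, e_smul, map_zero])
    (fun l w => by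
      induction w using ind with
      | h0 => simp
      | ha v w hv hw => rw [smul_add, map_add, map_add, smul_add, hv, hw]
      | hs k c => rw [x_smul, map_zero, rhoK_sg, Lau.x_sg, x_smul, map_zero])
    (fun l w => by
      induction w using ind with
      | h0 => simp
      | ha v w hv hw => rw [smul_add, map_add, map_add, smul_add, hv, hw]
      | hs k c =>
        rw [t_smul, map_zero, rhoK_sg, Lau.t_sg]
        symm
        refine Finset.sum_eq_zero fun i _ => Finset.sum_eq_zero fun j _ => ?_
        rw [mul_smul, t_smul, map_zero])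

theorem rhoR_sg (e : ℤ) (k : ℕ) (c : K) :
    rhoR D e (sg D k c) = Lau.sg D (e * k) (sg D k c) := rhoK_sg e k c

/-- the grading: `u^k` has degree `k e` -/
noncomputable def grd (D : Datum K I) (e : ℤ) : Grd D (PK D) where
  rho := rhoR D e
  tot w := by
    induction w using ind with
    | h0 => simp
    | ha v w hv hw => rw [map_add, map_add, hv, hw]
    | hs k c => rw [rhoR_sg, Lau.tot_sg]
  dg w := by
    induction w using ind with
    | h0 => simp
    | ha v w hv hw => rw [map_add, map_add, map_add, hv, hw]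
    | hs k c => rw [rhoR_sg, Lau.map_sg, rhoR_sg, Lau.dg_sg]

theorem rho_sg (e : ℤ) (k : ℕ) (c : K) :
    (grd D e).rho (sg D k c) = Lau.sg D (e * k) (sg D k c) := rhoK_sg e k c

/-- multiplication by `u`, linear -/
noncomputable def uK (D : Datum K I) : PK D →ₗ[K] PK D := liftP fun k => sg D (k + 1)

/-- multiplication by `u` -/
noncomputable def uu (D : Datum K I) : PK D →ₗ[KLRAlg D] PK D :=
  ofGens (uK D)
    (fun l i w => by rw [e_smul, e_smul, map_zero])
    (fun l w => by rw [x_smul, x_smul, map_zero])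
    (fun l w => by rw [t_smul, t_smul, map_zero])

theorem uu_sg (k : ℕ) (c : K) : uu D (sg D k c) = sg D (k + 1) c := liftP_sg _ k c

/-- the constant coefficient -/
noncomputable def pp (D : Datum K I) : PK D →ₗ[KLRAlg D] Un D :=
  ofGens ((Un.of D).toLinearMap.comp (cf D 0))
    (fun l i w => by rw [e_smul, Un.e_smul, map_zero])
    (fun l w => by rw [x_smul, Un.x_smul, map_zero])
    (fun l w => by rw [t_smul, Un.t_smul, map_zero])

theorem pp_apply (w : PK D) : pp D w = Un.of D (cf D 0 w) := rfl

theorem cf_uu_succ (k : ℕ) (w : PK D) : cf D (k + 1) (uu D w) = cf D k w := by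
  induction w using ind with
  | h0 => simp
  | ha v w hv hw => rw [map_add, map_add, map_add, hv, hw]
  | hs k' c =>
    rw [uu_sg, cf_sg, cf_sg]
    simp

theorem cf_uu_zero (w : PK D) : cf D 0 (uu D w) = 0 := by
  induction w using ind with
  | h0 => simp
  | ha v w hv hw => rw [map_add, map_add, hv, hw, add_zero]
  | hs k' c =>
    rw [uu_sg, cf_sg]
    simp

/-- division by `u` -/
noncomputable def dn (w : PK D) : PK D :=
  (Finsupp.comapDomain (fun k => k + 1) w ((add_left_injective 1).injOn) : ℕ →₀ K)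

omit [Fintype I] [DecidableEq I] in
theorem cf_dn (w : PK D) (k : ℕ) : cf D k (dn w) = cf D (k + 1) w := rfl

theorem red (D : Datum K I) : Red (uu D) (pp D) where
  inj := by
    intro y z h
    apply ext_cf
    intro k
    have h2 := congrArg (cf D (k + 1)) h
    rwa [cf_uu_succ, cf_uu_succ] at h2
  surj := by
    intro c
    obtain ⟨c, rfl⟩ := (Un.of D).surjective c
    refine ⟨sg D 0 c, ?_⟩
    rw [pp_apply, cf_sg, if_pos rfl]
  ker := by
    ext w
    rw [LinearMap.mem_ker, LinearMap.mem_range]
    constructor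
    · intro h
      rw [pp_apply] at h
      have h0 : cf D 0 w = 0 := (Un.of D).injective (by rw [h, map_zero])
      refine ⟨dn w, ?_⟩
      apply ext_cf
      intro k
      cases k with
      | zero => rw [cf_uu_zero, h0]
      | succ k => rw [cf_uu_succ, cf_dn]
    · rintro ⟨v, rfl⟩
      rw [pp_apply, cf_uu_zero, map_zero]

theorem homDeg_uu (e : ℤ) : HomDeg (grd D e) (grd D e) e (uu D) := by
  intro w
  induction w using ind with
  | h0 => simp
  | ha v w hv hw => rw [map_add, map_add, map_add, map_add, map_add, hv, hw]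
  | hs k c =>
    rw [uu_sg, rho_sg, rho_sg, Lau.map_sg, Lau.shift_sg, uu_sg]
    congr 2
    push_cast
    ring

theorem homDeg_pp (e : ℤ) : HomDeg (grd D e)
    (Grd.triv (fun k u => Un.x_smul D k u) (fun k u => Un.t_smul D k u)) 0 (pp D) := by
  intro w
  induction w using ind with
  | h0 => simp
  | ha v w hv hw => rw [map_add, map_add, map_add, map_add, map_add, hv, hw]
  | hs k c =>
    have h2 : ∀ v : Un D, (Grd.triv (fun k u => Un.x_smul D k u)
      (fun k u => Un.t_smul D k u)).rho v = Lau.sg D 0 v := fun v => rfl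
    rw [rho_sg, Lau.map_sg, Lau.shift_sg, pp_apply, cf_sg]
    cases k with
    | zero =>
      rw [if_pos rfl]
      refine (h2 _).trans ?_
      congr 2
      push_cast
      ring
    | succ k =>
      rw [if_neg (by omega)]
      simp

/-- the lattice -/
noncomputable def lat (D : Datum K I) (e : ℤ) : GM D := ⟨⟨PK D, grd D e⟩, 0, isStrand D⟩

theorem wtOf (D : Datum K I) : WtOf D 0 (PK D) (fun _ => 0) := by
  intro ν u hν _ _ i
  rw [List.length_eq_zero_iff.1 hν]
  rfl

theorem QP_zero (D : Datum K I) (p n : ℕ) : D.QP 0 p n = 1 := by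
  induction n generalizing p with
  | zero => rfl
  | succ n ih =>
    change D.QP1 p 0 * D.QP 0 (p + 1) n = 1
    rw [ih]
    change (1 : KLRAlg D) * 1 = 1
    rw [one_mul]

end XHBASE

open XHBASE in
theorem Mo.I_BASE (D : Datum K I) : Mo.StBase D := by
  intro e
  refine ⟨lat D e, uu D, pp D, rfl, red D, homDeg_uu e, homDeg_pp e, fun X gX => ?_⟩
  have hX : IsStrand D X.n X.M := X.smp.strand
  have hP : IsStrand D 0 (PK D) := isStrand D
  refine ⟨Conv.Rm hX hP, Conv.Rm hP hX, 1, 1, 0, 0, dqw D X.wt (fun _ => 0),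
    dqw D (fun _ => 0) X.wt, one_ne_zero, one_ne_zero, ?_, ?_, ?_, ?_, ?_, ?_⟩
  · intro y
    exact (LinearMap.congr_fun (Conv.Rm_map hX hP hX hP LinearMap.id (uu D)) y).symm
  · intro y
    exact (LinearMap.congr_fun (Conv.Rm_map hP hX hP hX (uu D) LinearMap.id) y).symm
  · intro y
    rw [one_smul, pow_zero]
    have h : (Conv.Rm hP hX) ∘ₗ (Conv.Rm hX hP) = LinearMap.id := by
      apply Conv.hom_ext
      intro u v
      rw [LinearMap.comp_apply, Conv.Rm_Rm_mk]
      change (1 : KLRAlg D) • _ = _
      rw [one_smul]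
      rfl
    exact LinearMap.congr_fun h y
  · intro y
    rw [one_smul, pow_zero]
    have h : (Conv.Rm hX hP) ∘ₗ (Conv.Rm hP hX) = LinearMap.id := by
      apply Conv.hom_ext
      intro u v
      rw [LinearMap.comp_apply, Conv.Rm_Rm_mk, QP_zero, one_smul]
      rfl
    exact LinearMap.congr_fun h y
  · exact HomDeg.Rm hX hP X.wtOf (wtOf D)
  · exact HomDeg.Rm hP hX (wtOf D) X.wtOf

end Pool.Agent.KLR
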