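import Pool.Agent.Work.MP_e487d8_al.Mo.Hd.Defs
import Pool.Agent.Work.MP_e487d8_al.Mo.R1.Ord

/-! MP_e487d8_al, block HD: the square of the R-matrix on `L(j)_z ∘ X`. -/

set_option autoImplicit false
set_option linter.unusedVariables false

namespace Pool.Agent.KLR

variable {K I : Type} [Field K] [Fintype I] [DecidableEq I] (D : Datum K I)

namespace XHONEL

variable {D} (j : I) {n : ℕ} {N : Type} [AddCommGroup N] [Module K N] [Module (KLRAlg D) N]
  [IsScalarTower K (KLRAlg D) N] (hN : IsStrand D n N)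

variable (N) in
/-- `Z ∘ 1` -/
noncomputable def F : Conv D 1 (Aff D (Lt D j)) N →ₗ[KLRAlg D] Conv D 1 (Aff D (Lt D j)) N :=
  Conv.map (rfl : 1 = 1) (Aff.Z D (Lt D j)) (LinearMap.id : N →ₗ[KLRAlg D] N)

/-- the square of the R-matrix -/
noncomputable def RR : Conv D 1 (Aff D (Lt D j)) N →ₗ[KLRAlg D] Conv D 1 (Aff D (Lt D j)) N :=
  (Conv.Rm hN (Aff.isStrand (Lt.isStrand D j))) ∘ₗ (Conv.Rm (Aff.isStrand (Lt.isStrand D j)) hN)

theorem RR_F (y : Conv D 1 (Aff D (Lt D j)) N) : RR j hN (F j N y) = F j N (RR j hN y) := by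
  have h1 := LinearMap.congr_fun (Conv.Rm_map (Aff.isStrand (Lt.isStrand D j)) hN
    (Aff.isStrand (Lt.isStrand D j)) hN (Aff.Z D (Lt D j)) (LinearMap.id : N →ₗ[KLRAlg D] N)) y
  have h2 := LinearMap.congr_fun (Conv.Rm_map hN (Aff.isStrand (Lt.isStrand D j))
    hN (Aff.isStrand (Lt.isStrand D j)) (LinearMap.id : N →ₗ[KLRAlg D] N) (Aff.Z D (Lt D j)))
    (Conv.Rm (Aff.isStrand (Lt.isStrand D j)) hN y)
  rw [LinearMap.comp_apply, LinearMap.comp_apply] at h1 h2
  unfold RR F
  rw [LinearMap.comp_apply, LinearMap.comp_apply, ← h1, ← h2]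

theorem RR_smul (r : K) (y : Conv D 1 (Aff D (Lt D j)) N) : RR j hN (r • y) = r • RR j hN y := by
  rw [← algebraMap_smul (KLRAlg D) r, map_smul, algebraMap_smul]

theorem pow_smul' (r : K) (s : ℕ) (y : Conv D 1 (Aff D (Lt D j)) N) :
    (F j N ^ s) (r • y) = r • (F j N ^ s) y := by
  rw [← algebraMap_smul (KLRAlg D) r, map_smul, algebraMap_smul]

theorem pow_F (s : ℕ) (y : Conv D 1 (Aff D (Lt D j)) N) :
    (F j N ^ s) (F j N y) = F j N ((F j N ^ s) y) := by
  rw [← Module.End.mul_apply, ← Module.End.mul_apply, ← pow_succ, ← pow_succ']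

/-- the formula on the vectors `w ∘ v` for one `v` -/
theorem all_w {c : K} {s : ℕ} {v : N}
    (h : RR j hN (Conv.mk D 1 (Aff D (Lt D j)) N (Aff.sg D 0 (Lt.one D j)) v) =
      c • (F j N ^ s) (Conv.mk D 1 (Aff D (Lt D j)) N (Aff.sg D 0 (Lt.one D j)) v))
    (w : Aff D (Lt D j)) :
    RR j hN (Conv.mk D 1 (Aff D (Lt D j)) N w v) =
      c • (F j N ^ s) (Conv.mk D 1 (Aff D (Lt D j)) N w v) := by
  induction w using Aff.ind with
  | h0 => simp
  | ha v w hv hw => rw [map_add, LinearMap.add_apply, map_add, map_add, smul_add, hv, hw]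
  | hs d u =>
    obtain ⟨r, rfl⟩ := Lt.exists_eq D j u
    rw [map_smul, map_smul, LinearMap.smul_apply, RR_smul, pow_smul', smul_comm c r]
    congr 1
    induction d with
    | zero => exact h
    | succ d ih =>
      have h1 : Conv.mk D 1 (Aff D (Lt D j)) N (Aff.sg D (d + 1) (Lt.one D j)) v =
          F j N (Conv.mk D 1 (Aff D (Lt D j)) N (Aff.sg D d (Lt.one D j)) v) := by
        unfold F
        rw [Conv.map_mk, Aff.Z_sg, LinearMap.id_apply]
      have h2 : ∀ y : Conv D 1 (Aff D (Lt D j)) N, F j N (c • y) = c • F j N y := by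
        intro y
        rw [← algebraMap_smul (KLRAlg D) c, map_smul, algebraMap_smul]
      rw [h1, RR_F, ih, pow_F, h2]

/-- the vectors for which the formula holds -/
noncomputable def S (c : K) (s : ℕ) : Submodule (KLRAlg D) N where
  carrier := {v | ∀ w, RR j hN (Conv.mk D 1 (Aff D (Lt D j)) N w v) =
    c • (F j N ^ s) (Conv.mk D 1 (Aff D (Lt D j)) N w v)}
  zero_mem' w := by simp
  add_mem' {u v} hu hv w := by
    rw [map_add, map_add, map_add, smul_add, hu w, hv w]
  smul_mem' a v hv w := by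
    rw [← Conv.shn_smul_mk, map_smul, map_smul, hv w, smul_comm c]

end XHONEL

open XHONEL in
/-- ONEL -/
theorem Mo.I_ONEL (hb : S_basis D) : Mo.StOneL D := by
  intro X j
  obtain ⟨μ, hμ⟩ := X.exists_ch_ne
  obtain ⟨v, hv⟩ := FdMod.exists_eig X.smp.toFdMod hμ
  have hw : EigW D (Aff.Z D (Lt D j)) [j] (Aff.sg D 0 (Lt.one D j)) := by
    constructor
    · rw [D.eW_cons, D.eW_nil, map_one, mul_one, Aff.e_sg, Lt.e_smul]
    · intro k hk
      exact Aff.x_sg_zero (Lt.isStrand D j) (fun k => Lt.x_smul D j k _) k hk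
  obtain ⟨c, hc, h⟩ := sq_eig (Aff.isAff (Lt.isStrand D j)) X.smp.strand hw rfl hv
    (chr_length hμ)
  refine ⟨c, D.qL [j] μ, hc, ?_⟩
  have h1 : v ∈ S j X.smp.strand c (D.qL [j] μ) := all_w j X.smp.strand h
  have h2 : S j X.smp.strand c (D.qL [j] μ) = ⊤ := by
    rcases eq_bot_or_eq_top (S j X.smp.strand c (D.qL [j] μ)) with h3 | h3
    · rw [h3, Submodule.mem_bot] at h1
      exact absurd h1 hv.ne
    · exact h3
  intro y
  change RR j X.smp.strand y = c • (F j X.M ^ (D.qL [j] μ)) y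
  induction y using Conv.induction with
  | h0 => simp
  | hadd y z hy hz => rw [map_add, map_add, smul_add, hy, hz]
  | h a w u =>
    have h3 : u ∈ S j X.smp.strand c (D.qL [j] μ) := by
      rw [h2]
      exact Submodule.mem_top
    rw [map_smul, map_smul, h3 w, smul_comm c]

end Pool.Agent.KLR
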